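import Mathlib

namespace Pool.Agent.Helper91.CK
open Finset

variable {V : Type*} [DecidableEq V]

def Sg (σ : V → ℤ) : Prop := ∀ v, σ v = 1 ∨ σ v = -1

def F (W : V → V → ℤ) (A : Finset V) (σ : V → ℤ) : ℤ :=
  -∑ x ∈ A, ∑ y ∈ A, W x y * σ x * σ y

def cr (W : V → V → ℤ) (A B : Finset V) (σ τ : V → ℤ) : ℤ :=
  ∑ x ∈ A, ∑ y ∈ B, W x y * σ x * τ y

lemma F_congr (W : V → V → ℤ) (A : Finset V) (σ τ : V → ℤ) (h : ∀ x ∈ A, σ x = τ x) :
    F W A σ = F W A τ := by
  unfold F
  congr 1
  apply Finset.sum_congr rfl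
  intro x hx
  apply Finset.sum_congr rfl
  intro y hy
  rw [h x hx, h y hy]

lemma F_union (W : V → V → ℤ) (hW : ∀ x y, W x y = W y x) (A B : Finset V)
    (hd : Disjoint A B) (σ : V → ℤ) :
    F W (A ∪ B) σ = F W A σ + F W B σ - 2 * cr W A B σ σ := by
  have h1 : cr W B A σ σ = cr W A B σ σ := by
    unfold cr
    rw [Finset.sum_comm]
    apply Finset.sum_congr rfl
    intro x _
    apply Finset.sum_congr rfl
    intro y _
    rw [hW y x]; ring
  unfold F
  rw [Finset.sum_union hd]
  simp_rw [Finset.sum_union hd, Finset.sum_add_distrib]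
  unfold cr at *
  rw [h1]
  ring

lemma cr_congr (W : V → V → ℤ) (A B : Finset V) (σ τ σ' τ' : V → ℤ)
    (h : ∀ x ∈ A, σ x = σ' x) (h2 : ∀ x ∈ B, τ x = τ' x) :
    cr W A B σ τ = cr W A B σ' τ' := by
  unfold cr
  apply Finset.sum_congr rfl
  intro x hx
  apply Finset.sum_congr rfl
  intro y hy
  rw [h x hx, h2 y hy]

lemma cr_neg (W : V → V → ℤ) (A B : Finset V) (σ τ : V → ℤ) :
    cr W A B σ (fun x => - τ x) = - cr W A B σ τ := by
  unfold cr
  rw [← Finset.sum_neg_distrib]
  apply Finset.sum_congr rfl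
  intro x _
  rw [← Finset.sum_neg_distrib]
  apply Finset.sum_congr rfl
  intro y _
  ring

lemma F_neg (W : V → V → ℤ) (B : Finset V) (τ : V → ℤ) :
    F W B (fun x => - τ x) = F W B τ := by
  unfold F
  congr 1
  apply Finset.sum_congr rfl
  intro x _
  apply Finset.sum_congr rfl
  intro y _
  ring

lemma ext_aux (W : V → V → ℤ) (hW : ∀ x y, W x y = W y x) (A B : Finset V)
    (hd : Disjoint A B) (σ τ : V → ℤ) (hσ : Sg σ) (hτ : Sg τ) :
    ∃ σ' : V → ℤ, Sg σ' ∧ (∀ x, x ∉ B → σ' x = σ x) ∧
      F W (A ∪ B) σ' = F W A σ + F W B τ - 2 * cr W A B σ τ := by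
  refine ⟨fun x => if x ∈ B then τ x else σ x, ?_, ?_, ?_⟩
  · intro v
    by_cases h : v ∈ B <;> simp [h, hτ v, hσ v]
  · intro x hx
    simp [hx]
  · rw [F_union W hW A B hd]
    have hA : ∀ x ∈ A, (fun x => if x ∈ B then τ x else σ x) x = σ x := by
      intro x hx
      have : x ∉ B := Finset.disjoint_left.mp hd hx
      simp [this]
    have hB : ∀ x ∈ B, (fun x => if x ∈ B then τ x else σ x) x = τ x := by
      intro x hx
      simp [hx]
    rw [F_congr W A _ _ hA, F_congr W B _ _ hB, cr_congr W A B _ _ _ _ hA hB]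

/-- extension by the better of the two orientations of a pattern on `B` -/
lemma ext (W : V → V → ℤ) (hW : ∀ x y, W x y = W y x) (A B : Finset V)
    (hd : Disjoint A B) (σ τ : V → ℤ) (hσ : Sg σ) (hτ : Sg τ) :
    ∃ σ' : V → ℤ, Sg σ' ∧ (∀ x, x ∉ B → σ' x = σ x) ∧
      F W A σ + F W B τ + 2 * |cr W A B σ τ| ≤ F W (A ∪ B) σ' := by
  rcases le_total 0 (cr W A B σ τ) with h | h
  · have hτ' : Sg (fun x => - τ x) := by
      intro v
      rcases hτ v with h1 | h1
      · right; simp [h1]
      · left; simp [h1]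
    obtain ⟨σ', h1, h2, h3⟩ := ext_aux W hW A B hd σ (fun x => - τ x) hσ hτ'
    refine ⟨σ', h1, h2, ?_⟩
    rw [h3, F_neg, cr_neg, abs_of_nonneg h]
    linarith
  · obtain ⟨σ', h1, h2, h3⟩ := ext_aux W hW A B hd σ τ hσ hτ
    refine ⟨σ', h1, h2, ?_⟩
    rw [h3, abs_of_nonpos h]
    linarith

/-- extension by one vertex -/
lemma ext_one (W : V → V → ℤ) (hW : ∀ x y, W x y = W y x) (h0 : ∀ x, W x x = 0)
    (A : Finset V) (v : V) (hv : v ∉ A) (σ : V → ℤ) (hσ : Sg σ) :
    ∃ σ' : V → ℤ, Sg σ' ∧ (∀ x, x ≠ v → σ' x = σ x) ∧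
      F W A σ + 2 * |∑ y ∈ A, W v y * σ y| ≤ F W (insert v A) σ' := by
  have hd : Disjoint A {v} := by simpa using hv
  obtain ⟨σ', h1, h2, h3⟩ := ext W hW A {v} hd σ (fun _ => 1) hσ (fun _ => Or.inl rfl)
  refine ⟨σ', h1, fun x hx => h2 x (by simpa using hx), ?_⟩
  have e1 : A ∪ {v} = insert v A := by
    ext x; simp [or_comm]
  have e2 : F W {v} (fun _ => 1) = 0 := by simp [F, h0]
  have e3 : cr W A {v} σ (fun _ => 1) = ∑ y ∈ A, W v y * σ y := by
    unfold cr
    apply Finset.sum_congr rfl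
    intro x _
    simp [hW x v]
  rw [e1, e2, e3] at h3
  linarith

/-- extension by a pair with opposite signs -/
lemma ext_pair (W : V → V → ℤ) (hW : ∀ x y, W x y = W y x) (h0 : ∀ x, W x x = 0)
    (A : Finset V) (v w : V) (hv : v ∉ A) (hw : w ∉ A) (hvw : v ≠ w) (σ : V → ℤ) (hσ : Sg σ) :
    ∃ σ' : V → ℤ, Sg σ' ∧ (∀ x, x ≠ v → x ≠ w → σ' x = σ x) ∧
      F W A σ + 2 * W v w + 2 * |∑ y ∈ A, (W v y - W w y) * σ y|
        ≤ F W (insert v (insert w A)) σ' := by
  have hd : Disjoint A {v, w} := by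
    rw [Finset.disjoint_right]
    intro x hx
    simp only [Finset.mem_insert, Finset.mem_singleton] at hx
    rcases hx with rfl | rfl <;> assumption
  set τ : V → ℤ := fun x => if x = v then 1 else -1 with hτ
  have hτs : Sg τ := by
    intro x
    by_cases h : x = v <;> simp [hτ, h]
  obtain ⟨σ', h1, h2, h3⟩ := ext W hW A {v, w} hd σ τ hσ hτs
  refine ⟨σ', h1, fun x hx hx' => h2 x (by simp [hx, hx']), ?_⟩
  have e1 : A ∪ {v, w} = insert v (insert w A) := by
    ext x; simp
  have tv : τ v = 1 := by simp [hτ]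
  have tw : τ w = -1 := by simp [hτ, hvw.symm]
  have e2 : F W {v, w} τ = 2 * W v w := by
    unfold F
    rw [Finset.sum_pair hvw, Finset.sum_pair hvw, Finset.sum_pair hvw, tv, tw, h0, h0, hW w v]
    ring
  have e3 : cr W A {v, w} σ τ = ∑ y ∈ A, (W v y - W w y) * σ y := by
    unfold cr
    apply Finset.sum_congr rfl
    intro x _
    rw [Finset.sum_pair hvw, tv, tw, hW x v, hW x w]
    ring
  rw [e1, e2, e3] at h3
  linarith

/-- extension by a pair, gaining the absolute value of the weight -/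
lemma ext_pair' (W : V → V → ℤ) (hW : ∀ x y, W x y = W y x) (h0 : ∀ x, W x x = 0)
    (A : Finset V) (v w : V) (hv : v ∉ A) (hw : w ∉ A) (hvw : v ≠ w) (σ : V → ℤ) (hσ : Sg σ) :
    ∃ σ' : V → ℤ, Sg σ' ∧ (∀ x, x ≠ v → x ≠ w → σ' x = σ x) ∧
      F W A σ + 2 * |W v w| ≤ F W (insert v (insert w A)) σ' := by
  have hd : Disjoint A {v, w} := by
    rw [Finset.disjoint_right]
    intro x hx
    simp only [Finset.mem_insert, Finset.mem_singleton] at hx
    rcases hx with rfl | rfl <;> assumption
  have e1 : A ∪ {v, w} = insert v (insert w A) := by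
    ext x; simp
  rcases le_total 0 (W v w) with h | h
  · set τ : V → ℤ := fun x => if x = v then 1 else -1 with hτ
    have hτs : Sg τ := by
      intro x
      by_cases h : x = v <;> simp [hτ, h]
    obtain ⟨σ', h1, h2, h3⟩ := ext W hW A {v, w} hd σ τ hσ hτs
    refine ⟨σ', h1, fun x hx hx' => h2 x (by simp [hx, hx']), ?_⟩
    have tv : τ v = 1 := by simp [hτ]
    have tw : τ w = -1 := by simp [hτ, hvw.symm]
    have e2 : F W {v, w} τ = 2 * W v w := by
      unfold F
      rw [Finset.sum_pair hvw, Finset.sum_pair hvw, Finset.sum_pair hvw, tv, tw, h0, h0, hW w v]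
      ring
    rw [e1, e2] at h3
    rw [abs_of_nonneg h]
    have := abs_nonneg (cr W A {v, w} σ τ)
    linarith
  · obtain ⟨σ', h1, h2, h3⟩ := ext W hW A {v, w} hd σ (fun _ => 1) hσ (fun _ => Or.inl rfl)
    refine ⟨σ', h1, fun x hx hx' => h2 x (by simp [hx, hx']), ?_⟩
    have e2 : F W {v, w} (fun _ => 1) = -(2 * W v w) := by
      unfold F
      rw [Finset.sum_pair hvw, Finset.sum_pair hvw, Finset.sum_pair hvw, h0, h0, hW w v]
      ring
    rw [e1, e2] at h3
    rw [abs_of_nonpos h]
    have := abs_nonneg (cr W A {v, w} σ (fun _ => 1))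
    linarith

/-- a finset all of whose pairs have nonzero integer weight has value at least its size minus 1,
also when glued to `A` -/
lemma clique_ext (W : V → V → ℤ) (hW : ∀ x y, W x y = W y x) (h0 : ∀ x, W x x = 0) :
    ∀ (n : ℕ) (B A : Finset V), B.card = n → Disjoint A B →
      (∀ x ∈ B, ∀ y ∈ B, x ≠ y → W x y ≠ 0) → ∀ σ : V → ℤ, Sg σ →
      ∃ σ' : V → ℤ, Sg σ' ∧ (∀ x, x ∉ B → σ' x = σ x) ∧
        F W A σ + ((B.card : ℤ) - 1) ≤ F W (A ∪ B) σ' := by
  intro n
  induction n using Nat.strong_induction_on with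
  | _ n ih =>
    intro B A hB hd hne σ hσ
    rcases lt_or_ge B.card 2 with h2 | h2
    · rcases Finset.eq_empty_or_nonempty B with rfl | ⟨v, hv⟩
      · refine ⟨σ, hσ, fun x _ => rfl, ?_⟩
        simp
      · have hB1 : B = {v} := by
          apply Finset.eq_singleton_iff_unique_mem.mpr
          refine ⟨hv, fun x hx => ?_⟩
          have : B.card ≤ 1 := by omega
          exact Finset.card_le_one.mp this x hx v hv
        subst hB1
        have hvA : v ∉ A := by
          simpa using hd
        obtain ⟨σ', h1, h3, h4⟩ := ext_one W hW h0 A v hvA σ hσ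
        refine ⟨σ', h1, fun x hx => h3 x (by simpa using hx), ?_⟩
        have e1 : A ∪ {v} = insert v A := by
          ext x; simp [or_comm]
        rw [e1]
        have := abs_nonneg (∑ y ∈ A, W v y * σ y)
        simp
        linarith
    · obtain ⟨v, hv, w, hw, hvw⟩ := Finset.one_lt_card.mp (by omega : 1 < B.card)
      set B' := (B.erase v).erase w with hB'
      have hc : B'.card = B.card - 2 := by
        rw [hB', Finset.card_erase_of_mem, Finset.card_erase_of_mem hv]
        · omega
        · exact Finset.mem_erase.mpr ⟨hvw.symm, hw⟩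
      have hsub : B' ⊆ B := (Finset.erase_subset _ _).trans (Finset.erase_subset _ _)
      obtain ⟨σ1, h1, h3, h4⟩ := ih B'.card (by omega) B' A rfl
        (Finset.disjoint_of_subset_right hsub hd)
        (fun x hx y hy => hne x (hsub hx) y (hsub hy)) σ hσ
      have hvA : v ∉ A ∪ B' := by
        rw [Finset.mem_union]
        push Not
        exact ⟨Finset.disjoint_right.mp hd hv, by simp [hB']⟩
      have hwA : w ∉ A ∪ B' := by
        rw [Finset.mem_union]
        push Not
        exact ⟨Finset.disjoint_right.mp hd hw, by simp [hB']⟩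
      obtain ⟨σ2, g1, g3, g4⟩ := ext_pair' W hW h0 (A ∪ B') v w hvA hwA hvw σ1 h1
      refine ⟨σ2, g1, ?_, ?_⟩
      · intro x hx
        have hxv : x ≠ v := fun h => hx (h ▸ hv)
        have hxw : x ≠ w := fun h => hx (h ▸ hw)
        rw [g3 x hxv hxw, h3 x (fun h => hx (hsub h))]
      · have e1 : insert v (insert w (A ∪ B')) = A ∪ B := by
          ext x
          simp only [Finset.mem_insert, Finset.mem_union, hB', Finset.mem_erase]
          constructor
          · rintro (rfl | rfl | h | ⟨_, _, h⟩)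
            · right; exact hv
            · right; exact hw
            · left; exact h
            · right; exact h
          · intro h
            by_cases hxv : x = v
            · left; exact hxv
            by_cases hxw : x = w
            · right; left; exact hxw
            rcases h with h | h
            · right; right; left; exact h
            · right; right; right; exact ⟨hxw, hxv, h⟩
        rw [e1] at g4
        have : (1 : ℤ) ≤ |W v w| := Int.one_le_abs (hne v hv w hw hvw)
        have hc' : (B'.card : ℤ) = B.card - 2 := by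
          rw [hc]; push_cast [h2]; ring
        rw [hc'] at h4
        linarith

lemma even_sum (f : V → V → ℕ) (hf : ∀ x y, f x y = f y x) (h0 : ∀ x, f x x = 0)
    (B : Finset V) : Even (∑ x ∈ B, ∑ y ∈ B, f x y) := by
  induction B using Finset.induction_on with
  | empty => simp
  | insert a B ha ih =>
    rw [Finset.sum_insert ha, Finset.sum_insert ha, h0]
    simp_rw [Finset.sum_insert ha, Finset.sum_add_distrib]
    have : ∑ x ∈ B, f x a = ∑ x ∈ B, f a x := Finset.sum_congr rfl (fun x _ => hf x a)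
    rw [this]
    obtain ⟨c, hc⟩ := ih
    refine ⟨∑ x ∈ B, f a x + c, ?_⟩
    omega

end Pool.Agent.Helper91.CK
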