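import Pool.Agent.Helper91.CK.RCls

namespace Pool.Agent.Helper91.CK
open Finset

variable {V : Type*} [Fintype V] [DecidableEq V]
variable {k : ℕ} {H : SimpleGraph V} [DecidableRel H.Adj] {a : V → ℕ} {h : V → V → ℕ}

lemma edges_S (hR : RH k H a h) (S : Finset V) :
    ∑ x, (S.filter (fun y => H.Adj x y)).card ≤ k * S.card := by
  have h1 : ∀ x, (S.filter (fun y => H.Adj x y)).card = ∑ y ∈ S, if H.Adj x y then 1 else 0 := by
    intro x
    rw [Finset.card_filter]
  simp_rw [h1]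
  rw [Finset.sum_comm]
  have h2 : ∀ y ∈ S, (∑ x, if H.Adj x y then 1 else 0) ≤ k := by
    intro y _
    have := hR.hdeg y
    rw [Finset.card_filter] at this
    simp_rw [H.adj_comm y] at this
    omega
  refine (Finset.sum_le_sum h2).trans ?_
  simp [mul_comm]

theorem rpart (hk : 1000 ≤ k) (hR : RH k H a h) :
    ∃ σ : V → ℤ, Sg σ ∧ (3 * ((k : ℤ) + 1) + 8) * (Fintype.card V : ℤ) ≤
      3 * ((k : ℤ) + 1) * F (Wt H h) univ σ + ((k : ℤ) + 1) * ∑ x, (a x : ℤ) := by
  classical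
  obtain ⟨S, q, σS, hSc, hσS, hFS, hS⟩ := exists_S hR
  set C : Finset (Finset V) := (univ.filter (fun v => v ∉ S)).image (Qf H h S) with hC
  have hcls : ∀ Q ∈ C, IsCls H h S Q := by
    intro Q hQ
    rw [hC, Finset.mem_image] at hQ
    obtain ⟨v, hv, rfl⟩ := hQ
    rw [Finset.mem_filter] at hv
    exact Qf_cls hR S hS v hv.2
  have hdS : ∀ Q ∈ C, Disjoint S Q := by
    intro Q hQ
    rw [Finset.disjoint_right]
    exact (hcls Q hQ).disj
  have hpd : ∀ Q ∈ C, ∀ Q' ∈ C, Q ≠ Q' → Disjoint Q Q' := by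
    intro Q hQ Q' hQ' hne
    rw [hC, Finset.mem_image] at hQ hQ'
    obtain ⟨v, hv, rfl⟩ := hQ
    obtain ⟨w, hw, rfl⟩ := hQ'
    rw [Finset.mem_filter] at hv hw
    rw [Finset.disjoint_left]
    intro x h1 h2
    exact hne (Qf_eq hR S hS v w x hv.2 hw.2 h1 h2)
  have hcov : S ∪ C.biUnion id = univ := by
    apply Finset.eq_univ_of_forall
    intro x
    rw [Finset.mem_union]
    by_cases hx : x ∈ S
    · left; exact hx
    · right
      rw [Finset.mem_biUnion]
      refine ⟨Qf H h S x, ?_, ?_⟩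
      · rw [hC, Finset.mem_image]
        exact ⟨x, by simp [hx], rfl⟩
      · rw [id, Qf_mem]
        exact ⟨hx, Or.inl rfl⟩
  have hpd' : (C : Set (Finset V)).PairwiseDisjoint id := by
    intro Q hQ Q' hQ' hne
    exact hpd Q hQ Q' hQ' hne
  have hdisSC : Disjoint S (C.biUnion id) := by
    rw [Finset.disjoint_biUnion_right]
    exact hdS
  have hn : (Fintype.card V : ℤ) = 3 * q + ∑ Q ∈ C, (Q.card : ℤ) := by
    rw [← Finset.card_univ, ← hcov, Finset.card_union_of_disjoint hdisSC,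
      Finset.card_biUnion hpd', hSc]
    push_cast
    rfl
  have hsumC : ∀ f : V → ℕ, ∑ Q ∈ C, ∑ x ∈ Q, f x ≤ ∑ x, f x := by
    intro f
    have : ∑ Q ∈ C, ∑ x ∈ Q, f x = ∑ x ∈ C.biUnion id, f x := by
      rw [Finset.sum_biUnion hpd']
      rfl
    rw [this]
    exact Finset.sum_le_sum_of_subset (Finset.subset_univ _)
  set n : ℤ := (Fintype.card V : ℤ) with hndef
  set t : ℤ := (C.card : ℤ) with ht
  set A : ℤ := ∑ x, (a x : ℤ) with hA
  have ht0 : 0 ≤ t := by positivity
  have hA0 : 0 ≤ A := Finset.sum_nonneg (fun x _ => by positivity)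
  have hq0 : (0 : ℤ) ≤ q := by positivity
  have hk' : (1000 : ℤ) ≤ k := by exact_mod_cast hk
  have hnle : n ≤ 3 * q + (k + 1) * t := by
    rw [hn]
    have : ∑ Q ∈ C, (Q.card : ℤ) ≤ ∑ Q ∈ C, ((k : ℤ) + 1) := by
      apply Finset.sum_le_sum
      intro Q hQ
      exact_mod_cast cls_card_le hR (hcls Q hQ)
    rw [Finset.sum_const, nsmul_eq_mul] at this
    linarith
  by_contra hcon
  push Not at hcon
  -- strategy one
  have hst1 : 3 * ((k : ℤ) + 1) * (n + q - t) + (k + 1) * A < (3 * ((k : ℤ) + 1) + 8) * n := by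
    obtain ⟨σ, f1, _, f3⟩ := Gn_all (Wt H h) S σS hσS (fun Q => (Q.card : ℤ) - 1) C hdS hpd
      (fun Q hQ => gn_normal hR (hcls Q hQ) σS)
    rw [hcov, Finset.sum_sub_distrib] at f3
    simp only [Finset.sum_const, nsmul_eq_mul, mul_one] at f3
    have h1 := hcon σ f1
    have h2 : n + q - t ≤ F (Wt H h) univ σ := by
      have : ∑ Q ∈ C, (Q.card : ℤ) = n - 3 * q := by linarith
      rw [this] at f3
      linarith
    have h3 : 3 * ((k : ℤ) + 1) * (n + q - t) ≤ 3 * ((k : ℤ) + 1) * F (Wt H h) univ σ :=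
      mul_le_mul_of_nonneg_left h2 (by positivity)
    linarith
  have hAt : A < 11 * t := by
    have h1 : ((k : ℤ) + 1) * A < (k + 1) * (11 * t) := by nlinarith
    exact lt_of_mul_lt_mul_left h1 (by positivity)
  have htpos : 0 < t := by linarith
  have hqt : (q : ℤ) < 4 * t := by
    by_contra hc
    push Not at hc
    have h1 : (3 * ((k : ℤ) + 1) - 24) * q < 11 * (k + 1) * t := by nlinarith
    have h2 : (3 * ((k : ℤ) + 1) - 24) * (4 * t) ≤ (3 * ((k : ℤ) + 1) - 24) * q :=
      mul_le_mul_of_nonneg_left hc (by linarith)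
    nlinarith
  -- bad classes
  set B1 := C.filter (fun Q => 44 ≤ ∑ x ∈ Q, a x) with hB1
  set B2 := C.filter (fun Q => 48 * k ≤ ∑ x ∈ Q, (S.filter (fun y => H.Adj x y)).card) with hB2
  set G := C.filter (fun Q => ∑ x ∈ Q, a x ≤ 43 ∧
    ∑ x ∈ Q, (S.filter (fun y => H.Adj x y)).card < 48 * k) with hG
  have hb1 : 4 * (B1.card : ℤ) < t := by
    have h1 : 44 * B1.card ≤ ∑ x, a x := by
      calc 44 * B1.card = ∑ Q ∈ B1, 44 := by simp [mul_comm]
        _ ≤ ∑ Q ∈ B1, ∑ x ∈ Q, a x := by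
            apply Finset.sum_le_sum
            intro Q hQ
            rw [hB1, Finset.mem_filter] at hQ
            exact hQ.2
        _ ≤ ∑ Q ∈ C, ∑ x ∈ Q, a x := Finset.sum_le_sum_of_subset (Finset.filter_subset _ _)
        _ ≤ ∑ x, a x := hsumC a
    have h2 : 44 * (B1.card : ℤ) ≤ A := by
      rw [hA]
      exact_mod_cast h1
    linarith
  have hb2 : 4 * (B2.card : ℤ) < t := by
    have h1 : 48 * k * B2.card ≤ k * (3 * q) := by
      calc 48 * k * B2.card = ∑ Q ∈ B2, 48 * k := by simp [mul_comm]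
        _ ≤ ∑ Q ∈ B2, ∑ x ∈ Q, (S.filter (fun y => H.Adj x y)).card := by
            apply Finset.sum_le_sum
            intro Q hQ
            rw [hB2, Finset.mem_filter] at hQ
            exact hQ.2
        _ ≤ ∑ Q ∈ C, ∑ x ∈ Q, (S.filter (fun y => H.Adj x y)).card :=
            Finset.sum_le_sum_of_subset (Finset.filter_subset _ _)
        _ ≤ ∑ x, (S.filter (fun y => H.Adj x y)).card := hsumC _
        _ ≤ k * S.card := edges_S hR S
        _ = k * (3 * q) := by rw [hSc]
    have h2 : k * (48 * B2.card) ≤ k * (3 * q) := by linarith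
    have h3 : 48 * B2.card ≤ 3 * q := Nat.le_of_mul_le_mul_left h2 (by omega)
    have h4 : 48 * (B2.card : ℤ) ≤ 3 * q := by exact_mod_cast h3
    linarith
  have hg2 : t < 2 * (G.card : ℤ) := by
    have h1 : C ⊆ B1 ∪ B2 ∪ G := by
      intro Q hQ
      simp only [hB1, hB2, hG, Finset.mem_union, Finset.mem_filter]
      by_cases h1 : 44 ≤ ∑ x ∈ Q, a x
      · left; left; exact ⟨hQ, h1⟩
      · by_cases h2 : 48 * k ≤ ∑ x ∈ Q, (S.filter (fun y => H.Adj x y)).card
        · left; right; exact ⟨hQ, h2⟩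
        · right
          exact ⟨hQ, by omega, by omega⟩
    have h2 := Finset.card_le_card h1
    have h3 := Finset.card_union_le (B1 ∪ B2) G
    have h4 := Finset.card_union_le B1 B2
    have h5 : C.card ≤ B1.card + B2.card + G.card := by omega
    have h6 : t ≤ (B1.card : ℤ) + B2.card + G.card := by
      rw [ht]
      exact_mod_cast h5
    linarith
  -- gains
  have hgain : ∀ Q ∈ C, ∃ g : Finset V → ℤ,
      (∀ T ∈ S.powerset, Gn (Wt H h) S Q (sg T) (g T)) ∧
      2 ^ S.card * ((Q.card : ℤ) - 1 + if Q ∈ G then 32 else 0) ≤ ∑ T ∈ S.powerset, g T := by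
    intro Q hQ
    by_cases hQG : Q ∈ G
    · have hQG' := hQG
      rw [hG, Finset.mem_filter] at hQG'
      obtain ⟨_, h1, h2⟩ := hQG'
      rw [if_pos hQG]
      have e : (Q.card : ℤ) - 1 + 32 = Q.card + 31 := by ring
      rw [e]
      rcases cls_range hk hR (hcls Q hQ) h1 h2 with h3 | h3
      · exact good_small hk hR (hcls Q hQ) h1 h3
      · exact good_large hk hR (hcls Q hQ) h1 h3
    · refine ⟨fun _ => (Q.card : ℤ) - 1, fun T _ => gn_normal hR (hcls Q hQ) (sg T), ?_⟩
      rw [if_neg hQG, add_zero, Finset.sum_const, Finset.card_powerset, nsmul_eq_mul]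
      push_cast
      exact le_refl _
  choose! g hg1 hg2' using hgain
  obtain ⟨σ, f1, f2⟩ := avg_all (Wt H h) (Wt_self hR) S C hdS hpd g hg1
    (fun Q => (Q.card : ℤ) - 1 + if Q ∈ G then 32 else 0) hg2'
  rw [hcov, Finset.sum_add_distrib, Finset.sum_sub_distrib] at f2
  have e1 : ∑ Q ∈ C, (if Q ∈ G then (32 : ℤ) else 0) = 32 * G.card := by
    rw [← Finset.sum_filter]
    have : C.filter (fun Q => Q ∈ G) = G := by
      ext Q
      simp only [Finset.mem_filter]
      constructor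
      · exact fun h => h.2
      · intro h
        refine ⟨?_, h⟩
        rw [hG, Finset.mem_filter] at h
        exact h.1
    rw [this]
    simp [mul_comm]
  rw [e1] at f2
  simp only [Finset.sum_const, nsmul_eq_mul, mul_one] at f2
  have h1 := hcon σ f1
  have h2 : n - 3 * q + 15 * t ≤ F (Wt H h) univ σ := by
    have : ∑ Q ∈ C, (Q.card : ℤ) = n - 3 * q := by linarith
    rw [this] at f2
    linarith
  have h3 : 3 * ((k : ℤ) + 1) * (n - 3 * q + 15 * t) ≤ 3 * ((k : ℤ) + 1) * F (Wt H h) univ σ :=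
    mul_le_mul_of_nonneg_left h2 (by positivity)
  have h4 : 0 ≤ ((k : ℤ) + 1) * A := by positivity
  have h5 : ((k : ℤ) + 1) * (3 * q) ≤ (k + 1) * (12 * t) :=
    mul_le_mul_of_nonneg_left (by linarith) (by positivity)
  nlinarith

end Pool.Agent.Helper91.CK
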