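import Pool.Agent.Helper91.CK.TPart
import Pool.Agent.Helper91.CK.RPart

namespace Pool.Agent.Helper91.CK
open Finset

variable {V : Type*} [Fintype V] [DecidableEq V]

def tch (G : SimpleGraph V) [DecidableRel G.Adj] (B : Finset V) : Finset V :=
  B.filter (fun x => ∃ y ∈ B, y ≠ x ∧ ¬ G.Adj x y)

def Tight (G : SimpleGraph V) [DecidableRel G.Adj] (k : ℕ) (B : Finset V) : Prop :=
  B.card = k + 1 ∧ 2 * (tch G B).card ≤ k + 1

variable {k : ℕ} {G : SimpleGraph V} [DecidableRel G.Adj]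

lemma exists_family (G : SimpleGraph V) [DecidableRel G.Adj] (k : ℕ) :
    ∃ C : Finset (Finset V), (∀ B ∈ C, Tight G k B) ∧
    (∀ B ∈ C, ∀ B' ∈ C, B ≠ B' → Disjoint B B') ∧
    ∀ B : Finset V, (∀ B' ∈ C, Disjoint B B') → ¬ Tight G k B := by
  classical
  obtain ⟨C, hC, hmax⟩ := Finset.exists_max_image (univ.filter (fun C : Finset (Finset V) =>
    (∀ B ∈ C, Tight G k B) ∧ (∀ B ∈ C, ∀ B' ∈ C, B ≠ B' → Disjoint B B')))
    (fun C => C.card) ⟨∅, by simp⟩
  rw [Finset.mem_filter] at hC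
  refine ⟨C, hC.2.1, hC.2.2, ?_⟩
  intro B hB hT
  have hBC : B ∉ C := by
    intro h
    have := hB B h
    rw [Finset.disjoint_self_iff_empty] at this
    have h2 := hT.1
    rw [this] at h2
    simp at h2
  have := hmax (insert B C) (by
    rw [Finset.mem_filter]
    refine ⟨Finset.mem_univ _, ?_, ?_⟩
    · intro B' hB'
      rw [Finset.mem_insert] at hB'
      rcases hB' with rfl | h
      · exact hT
      · exact hC.2.1 B' h
    · intro B1 h1 B2 h2 hne
      rw [Finset.mem_insert] at h1 h2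
      rcases h1 with rfl | h1
      · rcases h2 with rfl | h2
        · exact absurd rfl hne
        · exact hB B2 h2
      · rcases h2 with rfl | h2
        · exact (hB B1 h1).symm
        · exact hC.2.2 B1 h1 B2 h2 hne)
  rw [Finset.card_insert_of_notMem hBC] at this
  omega

def ad (G : SimpleGraph V) [DecidableRel G.Adj] (x y : V) : ℕ := if G.Adj x y then 1 else 0

lemma ad_symm (x y : V) : ad G x y = ad G y x := by
  simp [ad, G.adj_comm]

lemma ad_self (x : V) : ad G x x = 0 := by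
  simp [ad]

lemma ext_touch (hreg : ∀ v, ∑ y, ad G v y = k) (B : Finset V) (hB : B.card = k + 1) (x y : V)
    (hx : x ∈ B) (hy : y ∉ B) (hxy : G.Adj x y) : x ∈ tch G B := by
  rw [tch, Finset.mem_filter]
  refine ⟨hx, ?_⟩
  by_contra hcon
  push Not at hcon
  have h1 := hreg x
  have h2 : ∑ z ∈ insert y (B.erase x), ad G x z ≤ ∑ z, ad G x z :=
    Finset.sum_le_sum_of_subset (Finset.subset_univ _)
  rw [Finset.sum_insert (by simp [hy])] at h2
  have h3 : ∑ z ∈ B.erase x, ad G x z = k := by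
    have : ∀ z ∈ B.erase x, ad G x z = 1 := by
      intro z hz
      rw [Finset.mem_erase] at hz
      simp [ad, hcon z hz.2 hz.1]
    rw [Finset.sum_congr rfl this]
    simp [Finset.card_erase_of_mem hx, hB]
  have h4 : ad G x y = 1 := by simp [ad, hxy]
  omega

def ms (G : SimpleGraph V) [DecidableRel G.Adj] (x y : V) : ℕ :=
  if x ≠ y ∧ ¬ G.Adj x y then 1 else 0

lemma ms_symm (x y : V) : ms G x y = ms G y x := by
  unfold ms
  simp only [ne_comm, G.adj_comm, ne_eq, eq_comm]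

lemma ms_self (x : V) : ms G x x = 0 := by
  simp [ms]

lemma out_eq_miss (hreg : ∀ v, ∑ y, ad G v y = k) (B : Finset V) (hB : B.card = k + 1) :
    ∑ x ∈ B, ∑ y ∈ univ \ B, ad G x y = ∑ x ∈ B, ∑ y ∈ B, ms G x y := by
  apply Finset.sum_congr rfl
  intro x hx
  have h1 : ∑ y ∈ univ \ B, ad G x y + ∑ y ∈ B, ad G x y = k := by
    rw [Finset.sum_sdiff (Finset.subset_univ B)]
    exact hreg x
  have h2 : ∑ y ∈ B, ms G x y + ∑ y ∈ B, ad G x y = k := by
    rw [← Finset.sum_add_distrib, ← Finset.add_sum_erase B _ hx, ms_self, ad_self]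
    have : ∀ y ∈ B.erase x, ms G x y + ad G x y = 1 := by
      intro y hy
      rw [Finset.mem_erase] at hy
      unfold ms ad
      by_cases h : G.Adj x y
      · simp [h]
      · simp [h, Ne.symm hy.1]
    rw [Finset.sum_congr rfl this]
    simp [Finset.card_erase_of_mem hx, hB]
  omega

lemma miss_pos (hcf : G.CliqueFree (k + 1)) (B : Finset V) (hB : B.card = k + 1) :
    2 ≤ ∑ x ∈ B, ∑ y ∈ B, ms G x y := by
  have h1 : ¬ G.IsNClique (k + 1) B := hcf B
  rw [SimpleGraph.isNClique_iff] at h1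
  have h2 : ¬ G.IsClique B := fun h => h1 ⟨h, hB⟩
  rw [SimpleGraph.isClique_iff, Set.Pairwise] at h2
  push Not at h2
  obtain ⟨x, hx, y, hy, hxy, hna⟩ := h2
  have hx' : x ∈ B := hx
  have hy' : y ∈ B := hy
  have h3 : 1 ≤ ∑ x ∈ B, ∑ y ∈ B, ms G x y := by
    have h4 : ms G x y = 1 := by simp [ms, hxy, hna]
    calc 1 = ms G x y := h4.symm
      _ ≤ ∑ y ∈ B, ms G x y := Finset.single_le_sum (f := fun y => ms G x y)
          (fun _ _ => Nat.zero_le _) hy'
      _ ≤ ∑ x ∈ B, ∑ y ∈ B, ms G x y := Finset.single_le_sum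
          (f := fun x => ∑ y ∈ B, ms G x y) (fun _ _ => Nat.zero_le _) hx'
  obtain ⟨c, hc⟩ := even_sum (ms G) ms_symm ms_self B
  omega

end Pool.Agent.Helper91.CK
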