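import Pool.Agent.Helper91.CK.Block

namespace Pool.Agent.Helper91.CK
open Finset

variable {V : Type*} [Fintype V] [DecidableEq V]
variable {k : ℕ} {G : SimpleGraph V} [DecidableRel G.Adj]

lemma split_sum {M : Type*} [AddCommMonoid M] (C : Finset (Finset V))
    (hd : ∀ B ∈ C, ∀ B' ∈ C, B ≠ B' → Disjoint B B') (f : V → M) :
    ∑ x, f x = ∑ x : {x : V // ∀ B ∈ C, x ∉ B}, f x.1 + ∑ B : {B // B ∈ C}, ∑ x ∈ B.1, f x := by
  have hpd : (C : Set (Finset V)).PairwiseDisjoint id :=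
    fun B hB B' hB' hne => hd B hB B' hB' hne
  have h1 : ∑ B : {B // B ∈ C}, ∑ x ∈ B.1, f x = ∑ x ∈ C.biUnion id, f x := by
    rw [Finset.sum_biUnion hpd]
    exact Finset.sum_coe_sort C (fun B => ∑ x ∈ B, f x)
  have h2 : ∑ x : {x : V // ∀ B ∈ C, x ∉ B}, f x.1 = ∑ x ∈ univ.filter (fun x => ∀ B ∈ C, x ∉ B), f x := by
    rw [Finset.sum_subtype (univ.filter (fun x => ∀ B ∈ C, x ∉ B)) (p := fun x => ∀ B ∈ C, x ∉ B)]
    intro x
    simp
  rw [h1, h2, ← Finset.sum_union]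
  · apply Finset.sum_congr _ (fun _ _ => rfl)
    symm
    apply Finset.eq_univ_of_forall
    intro x
    rw [Finset.mem_union, Finset.mem_filter, Finset.mem_biUnion]
    by_cases h : ∀ B ∈ C, x ∉ B
    · left; exact ⟨Finset.mem_univ _, h⟩
    · right
      push Not at h
      obtain ⟨B, hB, hx⟩ := h
      exact ⟨B, hB, hx⟩
  · rw [Finset.disjoint_left]
    intro x hx hx2
    rw [Finset.mem_filter] at hx
    rw [Finset.mem_biUnion] at hx2
    obtain ⟨B, hB, hxB⟩ := hx2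
    exact hx.2 B hB hxB

def wTb (G : SimpleGraph V) [DecidableRel G.Adj] (C : Finset (Finset V))
    (B B' : {B // B ∈ C}) : ℕ := if B = B' then 0 else ∑ x ∈ B.1, ∑ y ∈ B'.1, ad G x y

def wRb (G : SimpleGraph V) [DecidableRel G.Adj] (C : Finset (Finset V))
    (B : {B // B ∈ C}) (x : {x : V // ∀ B ∈ C, x ∉ B}) : ℕ := ∑ y ∈ B.1, ad G y x.1

lemma wTb_symm (C : Finset (Finset V)) (B B' : {B // B ∈ C}) :
    wTb G C B B' = wTb G C B' B := by
  unfold wTb
  by_cases h : B = B'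
  · simp [h]
  · rw [if_neg h, if_neg (Ne.symm h), Finset.sum_comm]
    apply Finset.sum_congr rfl
    intro x _
    apply Finset.sum_congr rfl
    intro y _
    exact ad_symm _ _

lemma wTb_self (C : Finset (Finset V)) (B : {B // B ∈ C}) : wTb G C B B = 0 := by
  simp [wTb]

lemma eT_eq (hreg : ∀ v, ∑ y, ad G v y = k) (C : Finset (Finset V))
    (hT : ∀ B ∈ C, Tight G k B)
    (hd : ∀ B ∈ C, ∀ B' ∈ C, B ≠ B' → Disjoint B B') (B : {B // B ∈ C}) :
    eT (wTb G C) (wRb G C) B = ∑ x ∈ B.1, ∑ y ∈ B.1, ms G x y := by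
  rw [← out_eq_miss hreg B.1 (hT B.1 B.2).1]
  have h1 : ∑ x ∈ B.1, ∑ y ∈ univ \ B.1, ad G x y + ∑ x ∈ B.1, ∑ y ∈ B.1, ad G x y =
      ∑ x ∈ B.1, ∑ y, ad G x y := by
    rw [← Finset.sum_add_distrib]
    apply Finset.sum_congr rfl
    intro x _
    rw [Finset.sum_sdiff (Finset.subset_univ B.1)]
  have h2 : ∑ x ∈ B.1, ∑ y, ad G x y = ∑ x, wRb G C B x +
      (∑ B', wTb G C B B' + ∑ x ∈ B.1, ∑ y ∈ B.1, ad G x y) := by
    have e1 : ∀ x ∈ B.1, ∑ y, ad G x y =
        ∑ y : {x : V // ∀ B ∈ C, x ∉ B}, ad G x y.1 + ∑ B' : {B // B ∈ C}, ∑ y ∈ B'.1, ad G x y :=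
      fun x _ => split_sum C hd _
    rw [Finset.sum_congr rfl e1, Finset.sum_add_distrib, Finset.sum_comm, Finset.sum_comm (s := B.1)]
    congr 1
    have e2 : ∑ x ∈ B.1, ∑ y ∈ B.1, ad G x y =
        ∑ B' : {B // B ∈ C}, if B = B' then ∑ x ∈ B.1, ∑ y ∈ B.1, ad G x y else 0 := by
      rw [Finset.sum_ite_eq]
      simp
    rw [e2, ← Finset.sum_add_distrib]
    apply Finset.sum_congr rfl
    intro B' _
    unfold wTb
    by_cases h : B = B'
    · subst h
      simp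
    · rw [if_neg h, if_neg h, add_zero]
  unfold eT
  omega

lemma RH_of (hreg : ∀ v, ∑ y, ad G v y = k) (C : Finset (Finset V))
    (hd : ∀ B ∈ C, ∀ B' ∈ C, B ≠ B' → Disjoint B B')
    (hmax : ∀ B : Finset V, (∀ B' ∈ C, Disjoint B B') → ¬ Tight G k B) :
    RH (V := {x : V // ∀ B ∈ C, x ∉ B}) k (G.comap Subtype.val)
      (fun x => ∑ B, wRb G C B x) (hT (wTb G C) (wRb G C)) := by
  refine ⟨hT_symm _ _, hT_self _ _, hT_sum _ _, ?_, ?_⟩
  · intro x
    have h1 := hreg x.1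
    rw [split_sum C hd] at h1
    rw [Finset.card_filter]
    have e1 : ∑ y : {x : V // ∀ B ∈ C, x ∉ B}, ad G x.1 y.1 =
        ∑ y : {x : V // ∀ B ∈ C, x ∉ B}, if (G.comap Subtype.val).Adj x y then 1 else 0 := by
      apply Finset.sum_congr rfl
      intro y _
      simp [ad]
    have e2 : ∑ B : {B // B ∈ C}, ∑ y ∈ B.1, ad G x.1 y = ∑ B, wRb G C B x := by
      apply Finset.sum_congr rfl
      intro B _
      unfold wRb
      apply Finset.sum_congr rfl
      intro y _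
      exact ad_symm _ _
    rw [e1, e2] at h1
    exact h1
  · intro B hB
    by_contra hcon
    push Not at hcon
    apply hmax (B.map (Function.Embedding.subtype _))
    · intro B' hB'
      rw [Finset.disjoint_left]
      intro x hx hxB
      rw [Finset.mem_map] at hx
      obtain ⟨y, _, rfl⟩ := hx
      exact y.2 B' hB' hxB
    · refine ⟨by rw [Finset.card_map, hB], ?_⟩
      have : tch G (B.map (Function.Embedding.subtype _)) =
          (B.filter (fun x => ∃ y ∈ B, y ≠ x ∧ ¬ (G.comap Subtype.val).Adj x y)).map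
            (Function.Embedding.subtype _) := by
        ext x
        simp only [tch, Finset.mem_filter, Finset.mem_map, Function.Embedding.subtype_apply,
          SimpleGraph.comap_adj]
        constructor
        · rintro ⟨⟨x', hx', rfl⟩, y, ⟨y', hy', rfl⟩, hne, hna⟩
          exact ⟨x', ⟨hx', y', hy', fun h => hne (by rw [h]), hna⟩, rfl⟩
        · rintro ⟨x', ⟨hx', y', hy', hne, hna⟩, rfl⟩
          exact ⟨⟨x', hx', rfl⟩, y'.1, ⟨y', hy', rfl⟩, fun h => hne (Subtype.ext h), hna⟩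
      rw [this, Finset.card_map]
      exact hcon

lemma block_sum (B X : Finset V) (hB : B.card = k + 1)
    (hX1 : tch G B ⊆ X) (hX2 : X ⊆ B) (hX3 : X.card = (k + 1) / 2) :
    ∑ x ∈ B, ∑ y ∈ B, (ad G x y : ℤ) * (if x ∈ X then 1 else -1) * (if y ∈ X then 1 else -1) =
      - (2 * (((k + 1) / 2 : ℕ) : ℤ)) - ((∑ x ∈ B, ∑ y ∈ B, ms G x y : ℕ) : ℤ) := by
  set τ : V → ℤ := fun x => if x ∈ X then 1 else -1 with hτ
  have h1 : ∀ x ∈ B, ∀ y ∈ B, (ad G x y : ℤ) * τ x * τ y =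
      τ x * τ y - (if x = y then 1 else 0) - (ms G x y : ℤ) := by
    intro x hx y hy
    by_cases hxy : x = y
    · subst hxy
      have h2 : τ x * τ x = 1 := by
        rw [hτ]; by_cases h : x ∈ X <;> simp [h]
      rw [ad_self, ms_self, h2]
      simp
    · by_cases hadj : G.Adj x y
      · simp [ad, ms, hxy, hadj]
      · have hx' : x ∈ X := hX1 (by
          rw [tch, Finset.mem_filter]
          exact ⟨hx, y, hy, Ne.symm hxy, hadj⟩)
        have hy' : y ∈ X := hX1 (by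
          rw [tch, Finset.mem_filter]
          exact ⟨hy, x, hx, hxy, fun h => hadj h.symm⟩)
        simp [ad, ms, hxy, hadj, hτ, hx', hy']
  have h2 : ∑ x ∈ B, ∑ y ∈ B, (ad G x y : ℤ) * τ x * τ y =
      ∑ x ∈ B, ∑ y ∈ B, (τ x * τ y - (if x = y then 1 else 0) - (ms G x y : ℤ)) := by
    apply Finset.sum_congr rfl
    intro x hx
    apply Finset.sum_congr rfl
    intro y hy
    exact h1 x hx y hy
  rw [h2]
  simp_rw [Finset.sum_sub_distrib]
  have h3 : ∑ x ∈ B, ∑ y ∈ B, τ x * τ y = (∑ x ∈ B, τ x) * (∑ x ∈ B, τ x) := by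
    rw [Finset.sum_mul_sum]
  have h4 : ∑ x ∈ B, ∑ y ∈ B, (if x = y then (1 : ℤ) else 0) = k + 1 := by
    have : ∀ x ∈ B, ∑ y ∈ B, (if x = y then (1 : ℤ) else 0) = 1 := by
      intro x hx
      rw [Finset.sum_ite_eq]
      simp [hx]
    rw [Finset.sum_congr rfl this]
    simp [hB]
  have h5 : ∑ x ∈ B, τ x = 2 * (((k + 1) / 2 : ℕ) : ℤ) - (k + 1) := by
    rw [hτ]
    simp only
    rw [Finset.sum_ite, Finset.sum_const, Finset.sum_const]
    have e1 : B.filter (fun x => x ∈ X) = X := by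
      ext x
      rw [Finset.mem_filter]
      exact ⟨fun h => h.2, fun h => ⟨hX2 h, h⟩⟩
    have e2 : B.filter (fun x => x ∉ X) = B \ X := by
      ext x
      rw [Finset.mem_filter, Finset.mem_sdiff]
    rw [e1, e2, Finset.card_sdiff_of_subset hX2, hX3, hB]
    have : (k + 1) / 2 ≤ k + 1 := Nat.div_le_self _ _
    simp only [nsmul_eq_mul]
    push_cast [this]
    ring
  rw [h3, h4, h5]
  push_cast
  have h6 : (2 * (((k : ℤ) + 1) / 2) - (k + 1)) * (2 * (((k : ℤ) + 1) / 2) - (k + 1)) - (k + 1) =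
      - (2 * (((k : ℤ) + 1) / 2)) := by
    rcases Int.even_or_odd' ((k : ℤ) + 1) with ⟨c, hc | hc⟩
    · rw [hc]
      have : (2 * c) / 2 = c := by omega
      rw [this]; ring
    · rw [hc]
      have : (2 * c + 1) / 2 = c := by omega
      rw [this]; ring
  linarith

theorem lower (hk : 1000 ≤ k) (hreg : ∀ v, ∑ y, ad G v y = k) (hcf : G.CliqueFree (k + 1)) :
    ∃ σ : V → ℤ, Sg σ ∧ (6 * (((k + 1) / 2 : ℕ) : ℤ) + 8) * (Fintype.card V : ℤ) ≤
      3 * ((k : ℤ) + 1) * F (fun x y => (ad G x y : ℤ)) univ σ := by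
  classical
  obtain ⟨C, hTi, hd, hmax⟩ := exists_family G k
  have hR := RH_of hreg C hd hmax
  obtain ⟨σR, hσR, hRF⟩ := rpart hk hR
  have heT := eT_eq hreg C hTi hd
  have hch : ∀ B : {B // B ∈ C}, ∃ X : Finset V, tch G B.1 ⊆ X ∧ X ⊆ B.1 ∧
      X.card = (k + 1) / 2 := by
    intro B
    have h1 := hTi B.1 B.2
    exact Finset.exists_subsuperset_card_eq (Finset.filter_subset _ _) (by
      have := h1.2
      omega) (by rw [h1.1]; exact Nat.div_le_self _ _)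
  choose X hX1 hX2 hX3 using hch
  obtain ⟨ε, hε, hTF⟩ := tpart (wTb G C) (wRb G C) (wTb_symm C) (wTb_self C)
    (fun B => by rw [heT B]; exact even_sum (ms G) ms_symm ms_self B.1)
    (fun B => by rw [heT B]; exact miss_pos hcf B.1 (hTi B.1 B.2).1) σR hσR
  -- the sign assignment
  set σ : V → ℤ := fun v => if h : ∀ B ∈ C, v ∉ B then σR ⟨v, h⟩ else
    ∑ B : {B // B ∈ C}, if v ∈ B.1 then ε B * (if v ∈ X B then 1 else -1) else 0 with hσdef
  have hσR' : ∀ x : {x : V // ∀ B ∈ C, x ∉ B}, σ x.1 = σR x := by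
    intro x
    rw [hσdef]
    simp only
    rw [dif_pos x.2]
  have hσB : ∀ B : {B // B ∈ C}, ∀ v ∈ B.1, σ v = ε B * (if v ∈ X B then 1 else -1) := by
    intro B v hv
    rw [hσdef]
    simp only
    have hn : ¬ ∀ B ∈ C, v ∉ B := fun h => h B.1 B.2 hv
    rw [dif_neg hn, Finset.sum_eq_single B]
    · rw [if_pos hv]
    · intro B' _ hne
      rw [if_neg]
      intro hv'
      have : B'.1 ≠ B.1 := fun h => hne (Subtype.ext h)
      exact Finset.disjoint_left.mp (hd B'.1 B'.2 B.1 B.2 this) hv' hv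
    · intro h
      exact absurd (Finset.mem_univ _) h
  have hσs : Sg σ := by
    intro v
    by_cases hn : ∀ B ∈ C, v ∉ B
    · rw [hσR' ⟨v, hn⟩]
      exact hσR _
    · push Not at hn
      obtain ⟨B, hB, hv⟩ := hn
      rw [hσB ⟨B, hB⟩ v hv]
      rcases hε ⟨B, hB⟩ with h | h <;> by_cases h2 : v ∈ X ⟨B, hB⟩ <;> simp [h, h2]
  refine ⟨σ, hσs, ?_⟩
  have hε2 : ∀ B, ε B * ε B = 1 := by
    intro B
    rcases hε B with h | h <;> simp [h]
  -- sums across
  have hout : ∀ B : {B // B ∈ C}, ∀ x ∈ B.1, ∀ y, y ∉ B.1 → 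
      (ad G x y : ℤ) * σ x = (ad G x y : ℤ) * ε B := by
    intro B x hx y hy
    by_cases hadj : G.Adj x y
    · have := hX1 B (ext_touch hreg B.1 (hTi B.1 B.2).1 x y hx hy hadj)
      rw [hσB B x hx, if_pos this]
      ring
    · simp [ad, hadj]
  have hRB : ∀ (x : {x : V // ∀ B ∈ C, x ∉ B}) (B : {B // B ∈ C}),
      ∑ y ∈ B.1, (ad G x.1 y : ℤ) * σ x.1 * σ y = (wRb G C B x : ℤ) * ε B * σR x := by
    intro x B
    unfold wRb
    push_cast
    rw [Finset.sum_mul, Finset.sum_mul]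
    apply Finset.sum_congr rfl
    intro y hy
    have h1 := hout B y hy x.1 (x.2 B.1 B.2)
    rw [ad_symm x.1 y, hσR' x]
    linear_combination (σR x) * h1
  have hBR : ∀ (x : {x : V // ∀ B ∈ C, x ∉ B}) (B : {B // B ∈ C}),
      ∑ y ∈ B.1, (ad G y x.1 : ℤ) * σ y * σ x.1 = (wRb G C B x : ℤ) * ε B * σR x := by
    intro x B
    rw [← hRB x B]
    apply Finset.sum_congr rfl
    intro y hy
    rw [ad_symm x.1 y]
    ring
  have hBB : ∀ (B B' : {B // B ∈ C}), ∑ x ∈ B.1, ∑ y ∈ B'.1, (ad G x y : ℤ) * σ x * σ y =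
      (wTb G C B B' : ℤ) * ε B * ε B' + (if B = B' then
        (- (2 * (((k + 1) / 2 : ℕ) : ℤ)) - (eT (wTb G C) (wRb G C) B : ℤ)) else 0) := by
    intro B B'
    by_cases h : B = B'
    · subst h
      rw [if_pos rfl, wTb_self, heT B]
      simp only [Nat.cast_zero, zero_mul, zero_add]
      rw [← block_sum B.1 (X B) (hTi B.1 B.2).1 (hX1 B) (hX2 B) (hX3 B)]
      apply Finset.sum_congr rfl
      intro x hx
      apply Finset.sum_congr rfl
      intro y hy
      rw [hσB B x hx, hσB B y hy]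
      linear_combination ((ad G x y : ℤ) * (if x ∈ X B then 1 else -1) *
        (if y ∈ X B then 1 else -1)) * hε2 B
    · rw [if_neg h, add_zero]
      unfold wTb
      rw [if_neg h]
      push_cast
      rw [Finset.sum_mul, Finset.sum_mul]
      apply Finset.sum_congr rfl
      intro x hx
      rw [Finset.sum_mul, Finset.sum_mul]
      apply Finset.sum_congr rfl
      intro y hy
      have hne : B.1 ≠ B'.1 := fun h2 => h (Subtype.ext h2)
      have hdis := hd B.1 B.2 B'.1 B'.2 hne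
      have h1 := hout B x hx y (Finset.disjoint_right.mp hdis hy)
      have h2 := hout B' y hy x (Finset.disjoint_left.mp hdis hx)
      rw [ad_symm y x] at h2
      linear_combination (σ y) * h1 + (ε B) * h2
  have hF : F (fun x y => (ad G x y : ℤ)) univ σ =
      -(∑ x : {x : V // ∀ B ∈ C, x ∉ B}, ∑ y : {x : V // ∀ B ∈ C, x ∉ B},
          (ad G x.1 y.1 : ℤ) * σR x * σR y)
      - 2 * (∑ B, ∑ x, (wRb G C B x : ℤ) * ε B * σR x)
      - ∑ B, ∑ B', (wTb G C B B' : ℤ) * ε B * ε B'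
      + ∑ B : {B // B ∈ C}, (2 * (((k + 1) / 2 : ℕ) : ℤ) + (eT (wTb G C) (wRb G C) B : ℤ)) := by
    unfold F
    rw [split_sum C hd]
    have e1 : ∀ x : V, ∑ y, (ad G x y : ℤ) * σ x * σ y =
        ∑ y : {x : V // ∀ B ∈ C, x ∉ B}, (ad G x y.1 : ℤ) * σ x * σ y.1 +
        ∑ B : {B // B ∈ C}, ∑ y ∈ B.1, (ad G x y : ℤ) * σ x * σ y := fun x => split_sum C hd _
    simp_rw [e1, Finset.sum_add_distrib]
    have e2 : ∑ x : {x : V // ∀ B ∈ C, x ∉ B}, ∑ y : {x : V // ∀ B ∈ C, x ∉ B},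
        (ad G x.1 y.1 : ℤ) * σ x.1 * σ y.1 = ∑ x : {x : V // ∀ B ∈ C, x ∉ B},
        ∑ y : {x : V // ∀ B ∈ C, x ∉ B}, (ad G x.1 y.1 : ℤ) * σR x * σR y := by
      apply Finset.sum_congr rfl
      intro x _
      apply Finset.sum_congr rfl
      intro y _
      rw [hσR' x, hσR' y]
    have e3 : ∑ x : {x : V // ∀ B ∈ C, x ∉ B}, ∑ B : {B // B ∈ C}, ∑ y ∈ B.1,
        (ad G x.1 y : ℤ) * σ x.1 * σ y = ∑ B, ∑ x, (wRb G C B x : ℤ) * ε B * σR x := by
      rw [Finset.sum_comm]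
      apply Finset.sum_congr rfl
      intro B _
      apply Finset.sum_congr rfl
      intro x _
      exact hRB x B
    have e4 : ∑ B : {B // B ∈ C}, ∑ x ∈ B.1, ∑ y : {x : V // ∀ B ∈ C, x ∉ B},
        (ad G x y.1 : ℤ) * σ x * σ y.1 = ∑ B, ∑ x, (wRb G C B x : ℤ) * ε B * σR x := by
      apply Finset.sum_congr rfl
      intro B _
      rw [Finset.sum_comm]
      apply Finset.sum_congr rfl
      intro x _
      exact hBR x B
    have e5 : ∑ B : {B // B ∈ C}, ∑ x ∈ B.1, ∑ B' : {B // B ∈ C}, ∑ y ∈ B'.1,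
        (ad G x y : ℤ) * σ x * σ y = ∑ B, ∑ B', (wTb G C B B' : ℤ) * ε B * ε B'
        - ∑ B : {B // B ∈ C}, (2 * (((k + 1) / 2 : ℕ) : ℤ) + (eT (wTb G C) (wRb G C) B : ℤ)) := by
      rw [← Finset.sum_sub_distrib]
      apply Finset.sum_congr rfl
      intro B _
      rw [Finset.sum_comm]
      simp_rw [hBB B]
      rw [Finset.sum_add_distrib, Finset.sum_ite_eq]
      simp only [Finset.mem_univ, if_true]
      ring
    rw [e2, e3, e4, e5]
    simp_rw [Finset.sum_add_distrib]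
    ring
  -- relate to the weights on the rest
  have hW : F (Wt (G.comap Subtype.val) (hT (wTb G C) (wRb G C))) univ σR =
      -(∑ x : {x : V // ∀ B ∈ C, x ∉ B}, ∑ y : {x : V // ∀ B ∈ C, x ∉ B},
          (ad G x.1 y.1 : ℤ) * σR x * σR y) +
      ∑ x, ∑ y, (hT (wTb G C) (wRb G C) x y : ℤ) * σR x * σR y := by
    unfold F Wt
    rw [← Finset.sum_neg_distrib, ← Finset.sum_neg_distrib, ← Finset.sum_add_distrib]
    apply Finset.sum_congr rfl
    intro x _
    rw [← Finset.sum_neg_distrib, ← Finset.sum_neg_distrib, ← Finset.sum_add_distrib]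
    apply Finset.sum_congr rfl
    intro y _
    unfold ad
    by_cases hxy : G.Adj x.1 y.1
    · simp [hxy]; ring
    · simp [hxy]
  have hcard : (Fintype.card V : ℤ) = (Fintype.card {x : V // ∀ B ∈ C, x ∉ B} : ℤ) +
      ((k : ℤ) + 1) * (Fintype.card {B // B ∈ C} : ℤ) := by
    have h1 := split_sum C hd (fun _ => (1 : ℤ))
    have h2 : ∀ B : {B // B ∈ C}, ∑ x ∈ B.1, (1 : ℤ) = k + 1 := by
      intro B
      simp [(hTi B.1 B.2).1]
    simp_rw [h2] at h1
    simp only [Finset.sum_const, Finset.card_univ, nsmul_eq_mul, mul_one] at h1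
    rw [h1]
    ring
  have hA : ∑ x : {x : V // ∀ B ∈ C, x ∉ B}, ((∑ B, wRb G C B x : ℕ) : ℤ) =
      ∑ B, ∑ x, (wRb G C B x : ℤ) := by
    rw [Finset.sum_comm]
    push_cast
    rfl
  rw [hA, hW] at hRF
  rw [hF, hcard]
  rw [Finset.sum_sub_distrib] at hTF
  rw [Finset.sum_add_distrib]
  rw [← Finset.mul_sum] at hTF
  simp only [Finset.sum_const, Finset.card_univ, nsmul_eq_mul] at hTF ⊢
  set r : ℤ := (Fintype.card {x : V // ∀ B ∈ C, x ∉ B} : ℤ)
  set t : ℤ := (Fintype.card {B // B ∈ C} : ℤ)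
  set P : ℤ := ∑ x : {x : V // ∀ B ∈ C, x ∉ B}, ∑ y : {x : V // ∀ B ∈ C, x ∉ B},
          (ad G x.1 y.1 : ℤ) * σR x * σR y
  set Hs : ℤ := ∑ x, ∑ y, (hT (wTb G C) (wRb G C) x y : ℤ) * σR x * σR y
  set E : ℤ := ∑ B : {B // B ∈ C}, (eT (wTb G C) (wRb G C) B : ℤ)
  set A : ℤ := ∑ B : {B // B ∈ C}, ∑ x, (wRb G C B x : ℤ)
  set Wsum : ℤ := ∑ B, ∑ B', (wTb G C B B' : ℤ) * ε B * ε B'
  set Xs : ℤ := ∑ B, ∑ x, (wRb G C B x : ℤ) * ε B * σR x
  set m : ℤ := (((k + 1) / 2 : ℕ) : ℤ) with hm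
  have hm2 : 2 * m ≤ k + 1 := by
    rw [hm]
    have : 2 * ((k + 1) / 2) ≤ k + 1 := by omega
    exact_mod_cast this
  have hr0 : 0 ≤ r := by positivity
  have ht0 : 0 ≤ t := by positivity
  have hk0 : (0 : ℤ) ≤ k := by positivity
  have hTF' : ((k : ℤ) + 1) * (t * 8 - 3 * E + A + 3 * Hs) ≤
      (k + 1) * (3 * (-Wsum - 2 * Xs)) :=
    mul_le_mul_of_nonneg_left hTF (by positivity)
  have h7 : 0 ≤ ((k : ℤ) + 1 - 2 * m) * r := mul_nonneg (by linarith) hr0
  nlinarith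

end Pool.Agent.Helper91.CK
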