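import Pool.Agent.Helper91.CK.Rad

namespace Pool.Agent.Helper91.CK
open Finset

section gn
variable {V : Type*} [DecidableEq V]

def Gn (W : V → V → ℤ) (S Q : Finset V) (σ0 : V → ℤ) (c : ℤ) : Prop :=
  ∀ A : Finset V, S ⊆ A → Disjoint A Q → ∀ σ : V → ℤ, Sg σ → (∀ x ∈ S, σ x = σ0 x) →
    ∃ σ' : V → ℤ, Sg σ' ∧ (∀ x, x ∉ Q → σ' x = σ x) ∧ F W A σ + c ≤ F W (A ∪ Q) σ'

lemma Gn_all (W : V → V → ℤ) (S : Finset V) (σ0 : V → ℤ) (h0 : Sg σ0) (c : Finset V → ℤ)
    (C : Finset (Finset V)) (hd : ∀ Q ∈ C, Disjoint S Q)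
    (hp : ∀ Q ∈ C, ∀ Q' ∈ C, Q ≠ Q' → Disjoint Q Q')
    (hg : ∀ Q ∈ C, Gn W S Q σ0 (c Q)) :
    ∃ σ : V → ℤ, Sg σ ∧ (∀ x ∈ S, σ x = σ0 x) ∧
      F W S σ0 + ∑ Q ∈ C, c Q ≤ F W (S ∪ C.biUnion id) σ := by
  induction C using Finset.induction_on with
  | empty => exact ⟨σ0, h0, fun x _ => rfl, by simp⟩
  | insert Q C hQ ih =>
    obtain ⟨σ1, f1, f2, f3⟩ := ih (fun Q' h => hd Q' (Finset.mem_insert_of_mem h))
      (fun Q1 h1 Q2 h2 => hp Q1 (Finset.mem_insert_of_mem h1) Q2 (Finset.mem_insert_of_mem h2))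
      (fun Q' h => hg Q' (Finset.mem_insert_of_mem h))
    have hdis : Disjoint (S ∪ C.biUnion id) Q := by
      rw [Finset.disjoint_union_left]
      refine ⟨hd Q (Finset.mem_insert_self _ _), ?_⟩
      rw [Finset.disjoint_biUnion_left]
      intro Q' hQ'
      apply hp Q' (Finset.mem_insert_of_mem hQ') Q (Finset.mem_insert_self _ _)
      rintro rfl
      exact hQ hQ'
    obtain ⟨σ2, g1, g2, g3⟩ := hg Q (Finset.mem_insert_self _ _) _ Finset.subset_union_left
      hdis σ1 f1 f2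
    refine ⟨σ2, g1, ?_, ?_⟩
    · intro x hx
      rw [g2 x (Finset.disjoint_left.mp (hd Q (Finset.mem_insert_self _ _)) hx), f2 x hx]
    · have e : S ∪ (insert Q C).biUnion id = S ∪ C.biUnion id ∪ Q := by
        rw [Finset.biUnion_insert]
        ext x
        simp only [Finset.mem_union, id]
        tauto
      rw [e, Finset.sum_insert hQ]
      linarith

/-- averaging over the signs on `S` -/
lemma avg_all (W : V → V → ℤ) (h0 : ∀ x, W x x = 0) (S : Finset V)
    (C : Finset (Finset V)) (hd : ∀ Q ∈ C, Disjoint S Q)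
    (hp : ∀ Q ∈ C, ∀ Q' ∈ C, Q ≠ Q' → Disjoint Q Q') (g : Finset V → Finset V → ℤ)
    (hg : ∀ Q ∈ C, ∀ T ∈ S.powerset, Gn W S Q (sg T) (g Q T)) (v : Finset V → ℤ)
    (hv : ∀ Q ∈ C, 2 ^ S.card * v Q ≤ ∑ T ∈ S.powerset, g Q T) :
    ∃ σ : V → ℤ, Sg σ ∧ ∑ Q ∈ C, v Q ≤ F W (S ∪ C.biUnion id) σ := by
  by_contra hcon
  push Not at hcon
  have h1 : ∀ T ∈ S.powerset, F W S (sg T) + ∑ Q ∈ C, g Q T + 1 ≤ ∑ Q ∈ C, v Q := by
    intro T hT
    obtain ⟨σ, f1, _, f3⟩ := Gn_all W S (sg T) (sg_Sg T) (fun Q => g Q T) C hd hp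
      (fun Q hQ => hg Q hQ T hT)
    have := hcon σ f1
    linarith
  have h2 := Finset.sum_le_sum h1
  rw [Finset.sum_add_distrib, Finset.sum_add_distrib, rad_F W h0, Finset.sum_comm] at h2
  simp only [Finset.sum_const, Finset.card_powerset, nsmul_eq_mul, mul_one] at h2
  have h3 : ∑ Q ∈ C, 2 ^ S.card * v Q ≤ ∑ Q ∈ C, ∑ T ∈ S.powerset, g Q T :=
    Finset.sum_le_sum hv
  rw [← Finset.mul_sum] at h3
  push_cast at h2
  have : (0 : ℤ) < 2 ^ S.card := by positivity
  linarith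

/-- greedy list of disjoint pairs in `D` with different `f` values -/
def PL {β : Type*} (f : V → β) : Finset V → List (V × V) → Prop
  | _, [] => True
  | D, p :: L => p.1 ∈ D ∧ p.2 ∈ D ∧ f p.1 ≠ f p.2 ∧ PL f ((D.erase p.1).erase p.2) L

lemma PL_exists {β : Type*} (f : V → β) : ∀ (j : ℕ) (D : Finset V),
    (∃ L : List (V × V), L.length = j ∧ PL f D L) ∨
    (∃ P : Finset V, P ⊆ D ∧ P.card ≤ 2 * j ∧ ∀ x ∈ D \ P, ∀ y ∈ D \ P, f x = f y) := by
  intro j
  induction j with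
  | zero =>
    intro D
    left
    exact ⟨[], rfl, trivial⟩
  | succ j ih =>
    intro D
    by_cases h : ∀ x ∈ D, ∀ y ∈ D, f x = f y
    · right
      refine ⟨∅, by simp, by simp, ?_⟩
      intro x hx y hy
      exact h x (by simpa using hx) y (by simpa using hy)
    · push Not at h
      obtain ⟨x, hx, y, hy, hxy⟩ := h
      rcases ih ((D.erase x).erase y) with ⟨L, hL, hPL⟩ | ⟨P, hP, hc, hf⟩
      · left
        refine ⟨(x, y) :: L, by simp [hL], hx, hy, hxy, hPL⟩
      · right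
        refine ⟨insert x (insert y P), ?_, ?_, ?_⟩
        · intro z hz
          simp only [Finset.mem_insert] at hz
          rcases hz with rfl | rfl | hz
          · exact hx
          · exact hy
          · have := hP hz
            exact Finset.mem_of_mem_erase (Finset.mem_of_mem_erase this)
        · have h1 := Finset.card_insert_le x (insert y P)
          have h2 := Finset.card_insert_le y P
          omega
        · intro u hu w hw
          apply hf
          · simp only [Finset.mem_sdiff, Finset.mem_insert, Finset.mem_erase] at hu ⊢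
            tauto
          · simp only [Finset.mem_sdiff, Finset.mem_insert, Finset.mem_erase] at hw ⊢
            tauto

/-- extension along a list of pairs, each pair best-responding to `S` -/
lemma list_ext (W : V → V → ℤ) (hW : ∀ x y, W x y = W y x) (h0 : ∀ x, W x x = 0)
    {β : Type*} (f : V → β) (S T : Finset V) :
    ∀ (L : List (V × V)) (D A : Finset V), PL f D L → S ⊆ A → Disjoint A D →
      (∀ y ∈ A, y ∉ S → ∀ v ∈ D, ∀ w ∈ D, W v y = W w y) →
      (∀ v ∈ D, ∀ w ∈ D, v ≠ w → W v w = 1) →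
      ∀ σ : V → ℤ, Sg σ → (∀ x ∈ S, σ x = sg T x) →
      ∃ (P : Finset V) (σ' : V → ℤ), P ⊆ D ∧ P.card = 2 * L.length ∧ Sg σ' ∧
        (∀ x, x ∉ D → σ' x = σ x) ∧
        F W A σ + (L.map (fun p => 2 + 2 * |∑ x ∈ S, (W p.1 x - W p.2 x) * sg T x|)).sum ≤
          F W (A ∪ P) σ' := by
  intro L
  induction L with
  | nil =>
    intro D A _ _ _ _ _ σ hσ _
    exact ⟨∅, σ, by simp, by simp, hσ, fun x _ => rfl, by simp⟩
  | cons p L ih =>
    intro D A hPL hSA hAD hAeq hD1 σ hσ hσS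
    obtain ⟨hp1, hp2, hpf, hPL'⟩ := hPL
    have hne : p.1 ≠ p.2 := fun h => hpf (by rw [h])
    have hp1A : p.1 ∉ A := Finset.disjoint_right.mp hAD hp1
    have hp2A : p.2 ∉ A := Finset.disjoint_right.mp hAD hp2
    obtain ⟨σ1, f1, f2, f3⟩ := ext_pair W hW h0 A p.1 p.2 hp1A hp2A hne σ hσ
    have hsum : ∑ y ∈ A, (W p.1 y - W p.2 y) * σ y =
        ∑ x ∈ S, (W p.1 x - W p.2 x) * sg T x := by
      rw [← Finset.sum_subset hSA]
      · apply Finset.sum_congr rfl
        intro x hx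
        rw [hσS x hx]
      · intro x hxA hxS
        rw [hAeq x hxA hxS p.1 hp1 p.2 hp2]
        ring
    rw [hsum, hD1 p.1 hp1 p.2 hp2 hne] at f3
    set A' := insert p.1 (insert p.2 A) with hA'
    set D' := (D.erase p.1).erase p.2 with hD'
    have hD'D : D' ⊆ D := (Finset.erase_subset _ _).trans (Finset.erase_subset _ _)
    have g1 : S ⊆ A' := fun x hx => by simp [hA', hSA hx]
    have g2 : Disjoint A' D' := by
      rw [Finset.disjoint_right]
      intro x hx hxA
      have hxD := hD'D hx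
      simp only [hA', Finset.mem_insert] at hxA
      simp only [hD', Finset.mem_erase] at hx
      rcases hxA with h | h | h
      · exact hx.2.1 h
      · exact hx.1 h
      · exact Finset.disjoint_right.mp hAD hxD h
    have g3 : ∀ y ∈ A', y ∉ S → ∀ v ∈ D', ∀ w ∈ D', W v y = W w y := by
      intro y hy hyS v hv w hw
      have hvD := hD'D hv
      have hwD := hD'D hw
      simp only [hA', Finset.mem_insert] at hy
      simp only [hD', Finset.mem_erase] at hv hw
      rcases hy with rfl | rfl | hy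
      · rw [hD1 v hvD p.1 hp1 hv.2.1, hD1 w hwD p.1 hp1 hw.2.1]
      · rw [hD1 v hvD p.2 hp2 hv.1, hD1 w hwD p.2 hp2 hw.1]
      · exact hAeq y hy hyS v hvD w hwD
    have g4 : ∀ v ∈ D', ∀ w ∈ D', v ≠ w → W v w = 1 :=
      fun v hv w hw => hD1 v (hD'D hv) w (hD'D hw)
    have g5 : ∀ x ∈ S, σ1 x = sg T x := by
      intro x hx
      rw [f2 x (fun h => hp1A (h ▸ hSA hx)) (fun h => hp2A (h ▸ hSA hx)), hσS x hx]
    obtain ⟨P, σ2, k1, k2, k3, k4, k5⟩ := ih D' A' hPL' g1 g2 g3 g4 σ1 f1 g5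
    have hpP1 : p.1 ∉ insert p.2 P := by
      rw [Finset.mem_insert]
      push Not
      refine ⟨hne, fun h => ?_⟩
      have := k1 h
      simp [hD'] at this
    have hpP2 : p.2 ∉ P := by
      intro h
      have := k1 h
      simp [hD'] at this
    refine ⟨insert p.1 (insert p.2 P), σ2, ?_, ?_, k3, ?_, ?_⟩
    · intro z hz
      simp only [Finset.mem_insert] at hz
      rcases hz with rfl | rfl | hz
      · exact hp1
      · exact hp2
      · exact hD'D (k1 hz)
    · rw [Finset.card_insert_of_notMem hpP1, Finset.card_insert_of_notMem hpP2, k2,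
        List.length_cons]
      ring
    · intro x hx
      rw [k4 x (fun h => hx (hD'D h)), f2 x (fun h => hx (h ▸ hp1)) (fun h => hx (h ▸ hp2))]
    · have e : A ∪ insert p.1 (insert p.2 P) = A' ∪ P := by
        ext z
        simp only [hA', Finset.mem_union, Finset.mem_insert]
        tauto
      rw [e, List.map_cons, List.sum_cons]
      linarith

end gn

section rh
variable {V : Type*} [Fintype V] [DecidableEq V]

def Wt (H : SimpleGraph V) [DecidableRel H.Adj] (h : V → V → ℕ) (x y : V) : ℤ :=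
  (if H.Adj x y then 1 else 0) - (h x y : ℤ)

structure RH (k : ℕ) (H : SimpleGraph V) [DecidableRel H.Adj] (a : V → ℕ) (h : V → V → ℕ) :
    Prop where
  hsymm : ∀ x y, h x y = h y x
  hself : ∀ x, h x x = 0
  hsum : ∀ x, ∑ y, h x y ≤ a x
  hdeg : ∀ x, (univ.filter (fun y => H.Adj x y)).card + a x = k
  hnt : ∀ B : Finset V, B.card = k + 1 →
    k + 1 < 2 * (B.filter (fun x => ∃ y ∈ B, y ≠ x ∧ ¬ H.Adj x y)).card

variable {k : ℕ} {H : SimpleGraph V} [DecidableRel H.Adj] {a : V → ℕ} {h : V → V → ℕ}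

lemma Wt_symm (hR : RH k H a h) (x y : V) : Wt H h x y = Wt H h y x := by
  unfold Wt
  rw [hR.hsymm x y]
  simp only [H.adj_comm]

lemma Wt_self (hR : RH k H a h) (x : V) : Wt H h x x = 0 := by
  unfold Wt
  simp [hR.hself]

lemma h_card (hR : RH k H a h) (v : V) : (univ.filter (fun y => h v y ≠ 0)).card ≤ a v := by
  refine le_trans ?_ (hR.hsum v)
  rw [Finset.card_eq_sum_ones]
  calc ∑ x ∈ univ.filter (fun y => h v y ≠ 0), 1
      ≤ ∑ x ∈ univ.filter (fun y => h v y ≠ 0), h v x := by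
        apply Finset.sum_le_sum
        intro x hx
        rw [Finset.mem_filter] at hx
        exact Nat.one_le_iff_ne_zero.mpr hx.2
    _ ≤ ∑ x, h v x := Finset.sum_le_sum_of_subset (Finset.filter_subset _ _)

lemma nz_lower (hR : RH k H a h) (v : V) :
    k ≤ (univ.filter (fun y => Wt H h v y ≠ 0)).card + 2 * a v := by
  have h1 : (univ.filter (fun y => H.Adj v y)) ⊆
      (univ.filter (fun y => Wt H h v y ≠ 0)) ∪ (univ.filter (fun y => h v y ≠ 0)) := by
    intro y hy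
    simp only [Finset.mem_filter, Finset.mem_univ, true_and, Finset.mem_union] at *
    by_contra hc
    push Not at hc
    have h2 := hc.1
    unfold Wt at h2
    rw [if_pos hy, hc.2] at h2
    simp at h2
  have h2 := Finset.card_le_card h1
  have h3 := Finset.card_union_le (univ.filter (fun y => Wt H h v y ≠ 0))
    (univ.filter (fun y => h v y ≠ 0))
  have h4 := h_card hR v
  have h5 := hR.hdeg v
  omega

lemma nz_upper (hR : RH k H a h) (v : V) :
    (univ.filter (fun y => Wt H h v y ≠ 0)).card ≤ k := by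
  have h1 : (univ.filter (fun y => Wt H h v y ≠ 0)) ⊆
      (univ.filter (fun y => H.Adj v y)) ∪ (univ.filter (fun y => h v y ≠ 0)) := by
    intro y hy
    simp only [Finset.mem_filter, Finset.mem_univ, true_and, Finset.mem_union] at *
    by_contra hc
    push Not at hc
    apply hy
    unfold Wt
    rw [if_neg hc.1, hc.2]
    simp
  have h2 := Finset.card_le_card h1
  have h3 := Finset.card_union_le (univ.filter (fun y => H.Adj v y))
    (univ.filter (fun y => h v y ≠ 0))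
  have h4 := h_card hR v
  have h5 := hR.hdeg v
  omega

lemma p3_step (hR : RH k H a h) (S : Finset V) (σ : V → ℤ) (hσ : Sg σ) (x y z : V)
    (hx : x ∉ S) (hy : y ∉ S) (hz : z ∉ S) (hxy : x ≠ y) (hxz : x ≠ z) (hyz : y ≠ z)
    (w1 : Wt H h x y ≠ 0) (w2 : Wt H h y z ≠ 0) (w3 : Wt H h x z = 0) :
    ∃ σ' : V → ℤ, Sg σ' ∧ F (Wt H h) S σ + 4 ≤ F (Wt H h) (S ∪ {x, y, z}) σ' := by
  set W := Wt H h with hW
  have hs := Wt_symm hR
  have h0 := Wt_self hR
  obtain ⟨σ1, f1, f2, f3⟩ := ext_one W hs h0 {y} x (by simpa using hxy) (fun _ => 1)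
    (fun _ => Or.inl rfl)
  obtain ⟨σ2, g1, g2, g3⟩ := ext_one W hs h0 (insert x {y}) z (by
    simp [Ne.symm hxz, Ne.symm hyz]) σ1 f1
  have hset : insert z (insert x {y}) = ({x, y, z} : Finset V) := by
    ext u; simp; tauto
  rw [hset] at g3
  have hF1 : F W {y} (fun _ => 1) = 0 := by simp [F, hW, h0 y]
  rw [hF1] at f3
  simp only [Finset.sum_singleton, mul_one] at f3
  rw [Finset.sum_pair hxy] at g3
  have hzx : W z x = 0 := by rw [hW, hs]; exact w3
  rw [hzx, zero_mul, zero_add, abs_mul] at g3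
  have hab : |σ1 y| = 1 := by rcases f1 y with h | h <;> simp [h]
  rw [hab, mul_one] at g3
  have a1 : 1 ≤ |W x y| := Int.one_le_abs w1
  have a2 : 1 ≤ |W z y| := Int.one_le_abs (by rw [hW, hs]; exact w2)
  have hd : Disjoint S {x, y, z} := by
    rw [Finset.disjoint_right]
    intro u hu
    simp only [Finset.mem_insert, Finset.mem_singleton] at hu
    rcases hu with rfl | rfl | rfl <;> assumption
  obtain ⟨σ3, k1, _, k3⟩ := ext W hs S {x, y, z} hd σ σ2 hσ g1
  refine ⟨σ3, k1, ?_⟩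
  have := abs_nonneg (cr W S {x, y, z} σ σ2)
  linarith

lemma exists_S (hR : RH k H a h) : ∃ (S : Finset V) (q : ℕ) (σ : V → ℤ), S.card = 3 * q ∧ Sg σ ∧
    4 * (q : ℤ) ≤ F (Wt H h) S σ ∧
    ∀ x y z, x ∉ S → y ∉ S → z ∉ S → x ≠ y → x ≠ z → y ≠ z → Wt H h x y ≠ 0 →
      Wt H h y z ≠ 0 → Wt H h x z ≠ 0 := by
  classical
  obtain ⟨S, hS, hmax⟩ := Finset.exists_max_image (univ.filter (fun S : Finset V =>
    ∃ (q : ℕ) (σ : V → ℤ), S.card = 3 * q ∧ Sg σ ∧ 4 * (q : ℤ) ≤ F (Wt H h) S σ))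
    (fun S => S.card) ⟨∅, by
      rw [Finset.mem_filter]
      exact ⟨Finset.mem_univ _, 0, fun _ => 1, by simp, fun _ => Or.inl rfl, by simp [F]⟩⟩
  rw [Finset.mem_filter] at hS
  obtain ⟨_, q, σ, hc, hσ, hF⟩ := hS
  refine ⟨S, q, σ, hc, hσ, hF, ?_⟩
  intro x y z hx hy hz hxy hxz hyz w1 w2 w3
  obtain ⟨σ', f1, f2⟩ := p3_step hR S σ hσ x y z hx hy hz hxy hxz hyz w1 w2 w3
  have hd : Disjoint S {x, y, z} := by
    rw [Finset.disjoint_right]
    intro u hu
    simp only [Finset.mem_insert, Finset.mem_singleton] at hu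
    rcases hu with rfl | rfl | rfl <;> assumption
  have hcc : (S ∪ {x, y, z}).card = 3 * (q + 1) := by
    rw [Finset.card_union_of_disjoint hd, hc, Finset.card_eq_three.mpr
      ⟨x, y, z, hxy, hxz, hyz, rfl⟩]
    ring
  have := hmax (S ∪ {x, y, z}) (by
    rw [Finset.mem_filter]
    refine ⟨Finset.mem_univ _, q + 1, σ', hcc, f1, ?_⟩
    push_cast
    linarith)
  omega

structure IsCls (H : SimpleGraph V) [DecidableRel H.Adj] (h : V → V → ℕ) (S Q : Finset V) :
    Prop where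
  ne : Q.Nonempty
  disj : ∀ x ∈ Q, x ∉ S
  nz : ∀ x ∈ Q, ∀ y ∈ Q, x ≠ y → Wt H h x y ≠ 0
  z : ∀ x ∈ Q, ∀ y, y ∉ S → y ∉ Q → Wt H h x y = 0

def Qf (H : SimpleGraph V) [DecidableRel H.Adj] (h : V → V → ℕ) (S : Finset V) (v : V) :
    Finset V := univ.filter (fun y => y ∉ S ∧ (y = v ∨ Wt H h v y ≠ 0))

lemma Qf_mem (S : Finset V) (v y : V) : y ∈ Qf H h S v ↔ y ∉ S ∧ (y = v ∨ Wt H h v y ≠ 0) := by
  simp [Qf]

lemma Qf_cls (hR : RH k H a h) (S : Finset V)
    (hS : ∀ x y z, x ∉ S → y ∉ S → z ∉ S → x ≠ y → x ≠ z → y ≠ z → Wt H h x y ≠ 0 →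
      Wt H h y z ≠ 0 → Wt H h x z ≠ 0) (v : V) (hv : v ∉ S) : IsCls H h S (Qf H h S v) := by
  refine ⟨⟨v, ?_⟩, ?_, ?_, ?_⟩
  · rw [Qf_mem]; exact ⟨hv, Or.inl rfl⟩
  · intro x hx
    rw [Qf_mem] at hx
    exact hx.1
  · intro x hx y hy hxy
    rw [Qf_mem] at hx hy
    rcases hx.2 with rfl | hx2
    · rcases hy.2 with rfl | hy2
      · exact absurd rfl hxy
      · exact hy2
    · rcases hy.2 with rfl | hy2
      · rw [Wt_symm hR]; exact hx2
      · by_cases hxv : x = v
        · subst hxv; exact hy2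
        · by_cases hyv : y = v
          · subst hyv; rw [Wt_symm hR]; exact hx2
          · exact hS x v y hx.1 hv hy.1 hxv hxy (Ne.symm hyv) (by rw [Wt_symm hR]; exact hx2) hy2
  · intro x hx y hy hyQ
    rw [Qf_mem] at hx hyQ
    by_contra hne
    apply hyQ
    refine ⟨hy, ?_⟩
    rcases hx.2 with rfl | hx2
    · right; exact hne
    · by_cases hyv : y = v
      · left; exact hyv
      · right
        by_cases hxv : x = v
        · subst hxv; exact hne
        · by_cases hxy : x = y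
          · subst hxy; exact hx2
          · exact hS v x y hv hx.1 hy (Ne.symm hxv) (Ne.symm hyv) hxy hx2 hne

lemma Qf_eq (hR : RH k H a h) (S : Finset V)
    (hS : ∀ x y z, x ∉ S → y ∉ S → z ∉ S → x ≠ y → x ≠ z → y ≠ z → Wt H h x y ≠ 0 →
      Wt H h y z ≠ 0 → Wt H h x z ≠ 0) (v w x : V) (hv : v ∉ S) (hw : w ∉ S)
    (h1 : x ∈ Qf H h S v) (h2 : x ∈ Qf H h S w) : Qf H h S v = Qf H h S w := by
  have c1 := Qf_cls hR S hS v hv
  have c2 := Qf_cls hR S hS w hw
  have hx : x ∉ S := c1.disj x h1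
  ext y
  constructor
  · intro hy
    by_contra hc
    have hyS := c1.disj y hy
    have := c2.z x h2 y hyS hc
    by_cases hxy : x = y
    · exact hc (hxy ▸ h2)
    · exact c1.nz x h1 y hy hxy this
  · intro hy
    by_contra hc
    have hyS := c2.disj y hy
    have := c1.z x h1 y hyS hc
    by_cases hxy : x = y
    · exact hc (hxy ▸ h1)
    · exact c2.nz x h2 y hy hxy this

end rh

end Pool.Agent.Helper91.CK
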