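import Pool.Agent.Helper91.CK.RBase

namespace Pool.Agent.Helper91.CK
open Finset

variable {V : Type*} [Fintype V] [DecidableEq V]
variable {k : ℕ} {H : SimpleGraph V} [DecidableRel H.Adj] {a : V → ℕ} {h : V → V → ℕ}

lemma cls_nz_card (hR : RH k H a h) {S Q : Finset V} (hc : IsCls H h S Q) (v : V) (hv : v ∈ Q) :
    (univ.filter (fun y => Wt H h v y ≠ 0)).card =
      (Q.card - 1) + (S.filter (fun y => Wt H h v y ≠ 0)).card := by
  have h1 : (univ.filter (fun y => Wt H h v y ≠ 0)) =
      (Q.erase v) ∪ (S.filter (fun y => Wt H h v y ≠ 0)) := by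
    ext y
    simp only [Finset.mem_filter, Finset.mem_univ, true_and, Finset.mem_union, Finset.mem_erase]
    constructor
    · intro hy
      by_cases hyS : y ∈ S
      · right; exact ⟨hyS, hy⟩
      · left
        refine ⟨?_, ?_⟩
        · rintro rfl
          exact hy (Wt_self hR y)
        · by_contra hyQ
          exact hy (hc.z v hv y hyS hyQ)
    · rintro (⟨h1, h2⟩ | ⟨h1, h2⟩)
      · exact hc.nz v hv y h2 (Ne.symm h1)
      · exact h2
  rw [h1, Finset.card_union_of_disjoint, Finset.card_erase_of_mem hv]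
  rw [Finset.disjoint_left]
  intro y hy hy2
  rw [Finset.mem_erase] at hy
  rw [Finset.mem_filter] at hy2
  exact hc.disj y hy.2 hy2.1

lemma cls_card_le (hR : RH k H a h) {S Q : Finset V} (hc : IsCls H h S Q) : Q.card ≤ k + 1 := by
  obtain ⟨v, hv⟩ := hc.ne
  have h1 := cls_nz_card hR hc v hv
  have h2 := nz_upper hR v
  omega

lemma cls_deg (hR : RH k H a h) {S Q : Finset V} (hc : IsCls H h S Q) (v : V) (hv : v ∈ Q) :
    k + 1 ≤ Q.card + (S.filter (fun y => H.Adj v y)).card + 2 * a v := by
  have h1 : (univ.filter (fun y => H.Adj v y)) ⊆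
      (Q.erase v) ∪ (S.filter (fun y => H.Adj v y)) ∪ (univ.filter (fun y => h v y ≠ 0)) := by
    intro y hy
    simp only [Finset.mem_filter, Finset.mem_univ, true_and, Finset.mem_union,
      Finset.mem_erase] at *
    by_cases hyS : y ∈ S
    · left; right; exact ⟨hyS, hy⟩
    · by_cases hyQ : y ∈ Q
      · left; left
        refine ⟨?_, hyQ⟩
        rintro rfl
        exact H.loopless.irrefl _ hy
      · right
        intro h0
        have := hc.z v hv y hyS hyQ
        unfold Wt at this
        rw [if_pos hy, h0] at this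
        simp at this
  have h2 := Finset.card_le_card h1
  have h3 := Finset.card_union_le ((Q.erase v) ∪ (S.filter (fun y => H.Adj v y)))
    (univ.filter (fun y => h v y ≠ 0))
  have h4 := Finset.card_union_le (Q.erase v) (S.filter (fun y => H.Adj v y))
  have h5 := h_card hR v
  have h6 := hR.hdeg v
  have h7 : 0 < Q.card := Finset.card_pos.mpr ⟨v, hv⟩
  rw [Finset.card_erase_of_mem hv] at h4
  omega

lemma cls_edges (hR : RH k H a h) {S Q : Finset V} (hc : IsCls H h S Q) :
    Q.card * (k + 1) ≤ Q.card * Q.card + ∑ x ∈ Q, (S.filter (fun y => H.Adj x y)).card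
      + 2 * ∑ x ∈ Q, a x := by
  have h1 : ∑ x ∈ Q, (k + 1) ≤ ∑ x ∈ Q, (Q.card + (S.filter (fun y => H.Adj x y)).card
      + 2 * a x) := Finset.sum_le_sum (fun v hv => cls_deg hR hc v hv)
  rw [Finset.sum_const, Finset.sum_add_distrib, Finset.sum_add_distrib, Finset.sum_const,
    ← Finset.mul_sum] at h1
  simpa using h1

lemma cls_range (hk : 1000 ≤ k) (hR : RH k H a h) {S Q : Finset V} (hc : IsCls H h S Q)
    (ha : ∑ x ∈ Q, a x ≤ 43) (he : ∑ x ∈ Q, (S.filter (fun y => H.Adj x y)).card < 48 * k) :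
    Q.card ≤ 52 ∨ k + 1 ≤ Q.card + 52 := by
  by_contra hcon
  push Not at hcon
  obtain ⟨h1, h2⟩ := hcon
  have h3 := cls_edges hR hc
  have h4 := cls_card_le hR hc
  zify at *
  have : 0 ≤ ((Q.card : ℤ) - 53) * ((k : ℤ) + 1 - 53 - Q.card) := by
    apply mul_nonneg <;> linarith
  nlinarith

/-- the extension of a class with no best response -/
lemma gn_normal (hR : RH k H a h) {S Q : Finset V} (hc : IsCls H h S Q) (σ0 : V → ℤ) :
    Gn (Wt H h) S Q σ0 ((Q.card : ℤ) - 1) := by
  intro A _ hd σ hσ _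
  exact clique_ext (Wt H h) (Wt_symm hR) (Wt_self hR) Q.card Q A rfl hd hc.nz σ hσ

lemma gn_small (hR : RH k H a h) {S Q : Finset V} (hc : IsCls H h S Q) (v : V) (hv : v ∈ Q)
    (T : Finset V) :
    Gn (Wt H h) S Q (sg T) ((Q.card : ℤ) - 2 + 2 * |∑ x ∈ S, Wt H h v x * sg T x|) := by
  intro A hSA hd σ hσ hσS
  have hvA : v ∉ A := Finset.disjoint_right.mp hd hv
  obtain ⟨σ1, f1, f2, f3⟩ := ext_one (Wt H h) (Wt_symm hR) (Wt_self hR) A v hvA σ hσ
  have hsum : ∑ y ∈ A, Wt H h v y * σ y = ∑ x ∈ S, Wt H h v x * sg T x := by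
    rw [← Finset.sum_subset hSA]
    · apply Finset.sum_congr rfl
      intro x hx
      rw [hσS x hx]
    · intro x hxA hxS
      rw [hc.z v hv x hxS (fun h => Finset.disjoint_left.mp hd hxA h), zero_mul]
  rw [hsum] at f3
  have hd2 : Disjoint (insert v A) (Q.erase v) := by
    rw [Finset.disjoint_right]
    intro x hx hxA
    rw [Finset.mem_erase] at hx
    rw [Finset.mem_insert] at hxA
    rcases hxA with h | h
    · exact hx.1 h
    · exact Finset.disjoint_right.mp hd hx.2 h
  obtain ⟨σ2, g1, g2, g3⟩ := clique_ext (Wt H h) (Wt_symm hR) (Wt_self hR) (Q.erase v).card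
    (Q.erase v) (insert v A) rfl hd2 (fun x hx y hy => hc.nz x (Finset.mem_of_mem_erase hx) y
      (Finset.mem_of_mem_erase hy)) σ1 f1
  refine ⟨σ2, g1, ?_, ?_⟩
  · intro x hx
    rw [g2 x (fun h => hx (Finset.mem_of_mem_erase h)), f2 x (fun h => hx (h ▸ hv))]
  · have e : insert v A ∪ Q.erase v = A ∪ Q := by
      ext x
      simp only [Finset.mem_union, Finset.mem_insert, Finset.mem_erase]
      constructor
      · rintro ((rfl | h) | h)
        · right; exact hv
        · left; exact h
        · right; exact h.2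
      · intro h
        by_cases hx : x = v
        · left; left; exact hx
        · tauto
    rw [e] at g3
    have hcard : ((Q.erase v).card : ℤ) = Q.card - 1 := by
      rw [Finset.card_erase_of_mem hv]
      have : 0 < Q.card := Finset.card_pos.mpr ⟨v, hv⟩
      push_cast [this]
      ring
    rw [hcard] at g3
    linarith

lemma good_small (hk : 1000 ≤ k) (hR : RH k H a h) {S Q : Finset V} (hc : IsCls H h S Q)
    (ha : ∑ x ∈ Q, a x ≤ 43) (hs : Q.card ≤ 52) :
    ∃ g : Finset V → ℤ, (∀ T ∈ S.powerset, Gn (Wt H h) S Q (sg T) (g T)) ∧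
      2 ^ S.card * ((Q.card : ℤ) + 31) ≤ ∑ T ∈ S.powerset, g T := by
  obtain ⟨v, hv⟩ := hc.ne
  refine ⟨_, fun T _ => gn_small hR hc v hv T, ?_⟩
  rw [Finset.sum_add_distrib, ← Finset.mul_sum]
  have hav : a v ≤ 43 := by
    refine le_trans ?_ ha
    exact Finset.single_le_sum (f := a) (fun x _ => Nat.zero_le _) hv
  have h1 := cls_nz_card hR hc v hv
  have h2 := nz_lower hR v
  have h3 : 817 ≤ (S.filter (fun y => Wt H h v y ≠ 0)).card := by omega
  have h4 : (817 : ℤ) ≤ ∑ x ∈ S, Wt H h v x ^ 2 := by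
    calc (817 : ℤ) ≤ ((S.filter (fun y => Wt H h v y ≠ 0)).card : ℤ) := by exact_mod_cast h3
      _ = ∑ x ∈ S.filter (fun y => Wt H h v y ≠ 0), 1 := by simp
      _ ≤ ∑ x ∈ S.filter (fun y => Wt H h v y ≠ 0), Wt H h v x ^ 2 := by
          apply Finset.sum_le_sum
          intro x hx
          rw [Finset.mem_filter] at hx
          have : 0 < Wt H h v x ^ 2 := by
            have := hx.2
            positivity
          linarith
      _ ≤ ∑ x ∈ S, Wt H h v x ^ 2 :=
          Finset.sum_le_sum_of_subset_of_nonneg (Finset.filter_subset _ _)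
            (fun x _ _ => sq_nonneg _)
  have h5 := rad_khin (fun x => Wt H h v x) S h4
  simp only [Finset.sum_const, Finset.card_powerset, nsmul_eq_mul]
  push_cast
  linarith

lemma gn_list (hR : RH k H a h) {S Q : Finset V} (hc : IsCls H h S Q)
    {β : Type*} (f : V → β) (D : Finset V) (hDQ : D ⊆ Q)
    (hD1 : ∀ v ∈ D, ∀ w ∈ D, v ≠ w → Wt H h v w = 1)
    (L : List (V × V)) (hL : PL f D L) (T : Finset V) :
    Gn (Wt H h) S Q (sg T) ((Q.card : ℤ) - 1 - 2 * L.length +
      (L.map (fun p => 2 + 2 * |∑ x ∈ S, (Wt H h p.1 x - Wt H h p.2 x) * sg T x|)).sum) := by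
  intro A hSA hd σ hσ hσS
  have hdD : Disjoint A D := Finset.disjoint_of_subset_right hDQ hd
  obtain ⟨P, σ1, f1, f2, f3, f4, f5⟩ := list_ext (Wt H h) (Wt_symm hR) (Wt_self hR) f S T L D A hL
    hSA hdD (by
      intro y hyA hyS v hv w hw
      have hyQ : y ∉ Q := fun h => Finset.disjoint_left.mp hd hyA h
      rw [hc.z v (hDQ hv) y hyS hyQ, hc.z w (hDQ hw) y hyS hyQ]) hD1 σ hσ hσS
  have hPQ : P ⊆ Q := f1.trans hDQ
  have hd2 : Disjoint (A ∪ P) (Q \ P) := by
    rw [Finset.disjoint_right]
    intro x hx hxA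
    rw [Finset.mem_sdiff] at hx
    rw [Finset.mem_union] at hxA
    rcases hxA with h | h
    · exact Finset.disjoint_right.mp hd hx.1 h
    · exact hx.2 h
  obtain ⟨σ2, g1, g2, g3⟩ := clique_ext (Wt H h) (Wt_symm hR) (Wt_self hR) (Q \ P).card
    (Q \ P) (A ∪ P) rfl hd2 (fun x hx y hy => hc.nz x (Finset.mem_sdiff.mp hx).1 y
      (Finset.mem_sdiff.mp hy).1) σ1 f3
  refine ⟨σ2, g1, ?_, ?_⟩
  · intro x hx
    rw [g2 x (fun h => hx (Finset.mem_sdiff.mp h).1), f4 x (fun h => hx (hDQ h))]
  · have e : A ∪ P ∪ Q \ P = A ∪ Q := by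
      ext x
      simp only [Finset.mem_union, Finset.mem_sdiff]
      constructor
      · rintro ((h | h) | h)
        · left; exact h
        · right; exact hPQ h
        · right; exact h.1
      · tauto
    rw [e] at g3
    have hcard : ((Q \ P).card : ℤ) = Q.card - 2 * L.length := by
      rw [Finset.card_sdiff_of_subset hPQ, f2]
      have : P.card ≤ Q.card := Finset.card_le_card hPQ
      rw [f2] at this
      push_cast [this]
      ring
    rw [hcard] at g3
    linarith

lemma good_large (hk : 1000 ≤ k) (hR : RH k H a h) {S Q : Finset V} (hc : IsCls H h S Q)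
    (ha : ∑ x ∈ Q, a x ≤ 43) (hs : k + 1 ≤ Q.card + 52) :
    ∃ g : Finset V → ℤ, (∀ T ∈ S.powerset, Gn (Wt H h) S Q (sg T) (g T)) ∧
      2 ^ S.card * ((Q.card : ℤ) + 31) ≤ ∑ T ∈ S.powerset, g T := by
  classical
  set Q0 := Q.filter (fun x => a x = 0) with hQ0
  have hQ0Q : Q0 ⊆ Q := Finset.filter_subset _ _
  have hh0 : ∀ v ∈ Q0, ∀ y, h v y = 0 := by
    intro v hv y
    rw [hQ0, Finset.mem_filter] at hv
    have h1 := hR.hsum v
    rw [hv.2] at h1
    have h2 : h v y ≤ ∑ y, h v y := Finset.single_le_sum (f := fun y => h v y)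
      (fun x _ => Nat.zero_le _) (Finset.mem_univ y)
    omega
  have hW0 : ∀ v ∈ Q0, ∀ y, Wt H h v y = if H.Adj v y then 1 else 0 := by
    intro v hv y
    unfold Wt
    rw [hh0 v hv y]
    simp
  have hAdj : ∀ v ∈ Q0, ∀ y ∈ Q, y ≠ v → H.Adj v y := by
    intro v hv y hy hne
    by_contra hcon
    have h1 := hc.nz v (hQ0Q hv) y hy (Ne.symm hne)
    rw [hW0 v hv y, if_neg hcon] at h1
    exact h1 rfl
  have hnAdj : ∀ v ∈ Q0, ∀ y, y ∉ S → y ∉ Q → ¬ H.Adj v y := by
    intro v hv y hyS hyQ hcon
    have h1 := hc.z v (hQ0Q hv) y hyS hyQ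
    rw [hW0 v hv y, if_pos hcon] at h1
    omega
  have hQs : (Q \ Q0).card ≤ 43 := by
    refine le_trans ?_ ha
    have : (Q \ Q0).card ≤ ∑ x ∈ Q \ Q0, a x := by
      rw [Finset.card_eq_sum_ones]
      apply Finset.sum_le_sum
      intro x hx
      rw [Finset.mem_sdiff, hQ0, Finset.mem_filter] at hx
      have : a x ≠ 0 := fun h => hx.2 ⟨hx.1, h⟩
      omega
    refine this.trans ?_
    exact Finset.sum_le_sum_of_subset Finset.sdiff_subset
  have hD1 : ∀ v ∈ Q0, ∀ w ∈ Q0, v ≠ w → Wt H h v w = 1 := by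
    intro v hv w hw hne
    rw [hW0 v hv w, if_pos (hAdj v hv w (hQ0Q hw) (Ne.symm hne))]
  set f : V → Finset V := fun v => S.filter (fun y => H.Adj v y) with hf
  -- degrees into S
  have hd : ∀ v ∈ Q0, (f v).card + Q.card = k + 1 := by
    intro v hv
    have h1 : (univ.filter (fun y => H.Adj v y)) = (Q.erase v) ∪ f v := by
      ext y
      simp only [Finset.mem_filter, Finset.mem_univ, true_and, Finset.mem_union,
        Finset.mem_erase, hf]
      constructor
      · intro hy
        by_cases hyS : y ∈ S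
        · right; exact ⟨hyS, hy⟩
        · left
          refine ⟨?_, ?_⟩
          · rintro rfl
            exact H.loopless.irrefl _ hy
          · by_contra hyQ
            exact hnAdj v hv y hyS hyQ hy
      · rintro (⟨h1, h2⟩ | ⟨h1, h2⟩)
        · exact hAdj v hv y h2 h1
        · exact h2
    have h2 := hR.hdeg v
    have hav : a v = 0 := by
      rw [hQ0, Finset.mem_filter] at hv
      exact hv.2
    have hdis : Disjoint (Q.erase v) (f v) := by
      rw [Finset.disjoint_left]
      intro y hy hy2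
      rw [Finset.mem_erase] at hy
      rw [hf] at hy2
      simp only [Finset.mem_filter] at hy2
      exact hc.disj y hy.2 hy2.1
    rw [h1, Finset.card_union_of_disjoint hdis, Finset.card_erase_of_mem (hQ0Q hv), hav] at h2
    have : 0 < Q.card := Finset.card_pos.mpr ⟨v, hQ0Q hv⟩
    omega
  rcases PL_exists f 16 Q0 with ⟨L, hLl, hL⟩ | ⟨P, hPQ, hPc, hPf⟩
  · refine ⟨_, fun T _ => gn_list hR hc f Q0 hQ0Q hD1 L hL T, ?_⟩
    rw [Finset.sum_add_distrib]
    -- the list sum
    have h1 : 2 ^ S.card * (4 * (L.length : ℤ)) ≤ ∑ T ∈ S.powerset,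
      (L.map (fun p => 2 + 2 * |∑ x ∈ S, (Wt H h p.1 x - Wt H h p.2 x) * sg T x|)).sum := by
      have key : ∀ (L : List (V × V)) (D : Finset V), D ⊆ Q0 → PL f D L →
          2 ^ S.card * (4 * (L.length : ℤ)) ≤ ∑ T ∈ S.powerset,
          (L.map (fun p => 2 + 2 * |∑ x ∈ S, (Wt H h p.1 x - Wt H h p.2 x) * sg T x|)).sum := by
        intro L
        induction L with
        | nil => intro D _ _; simp
        | cons p L ih =>
          intro D hD hPL
          obtain ⟨hp1, hp2, hpf, hPL'⟩ := hPL
          have h1 := ih _ (((Finset.erase_subset _ _).trans (Finset.erase_subset _ _)).trans hD)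
            hPL'
          simp only [List.map_cons, List.sum_cons, List.length_cons]
          rw [Finset.sum_add_distrib, Finset.sum_add_distrib, ← Finset.mul_sum]
          have hx : ∃ x ∈ S, Wt H h p.1 x ≠ Wt H h p.2 x := by
            by_contra hcon
            push Not at hcon
            apply hpf
            ext x
            simp only [hf, Finset.mem_filter]
            constructor
            · rintro ⟨h1, h2⟩
              refine ⟨h1, ?_⟩
              have := hcon x h1
              rw [hW0 p.1 (hD hp1), hW0 p.2 (hD hp2), if_pos h2] at this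
              by_contra h3
              rw [if_neg h3] at this
              omega
            · rintro ⟨h1, h2⟩
              refine ⟨h1, ?_⟩
              have := hcon x h1
              rw [hW0 p.1 (hD hp1), hW0 p.2 (hD hp2), if_pos h2] at this
              by_contra h3
              rw [if_neg h3] at this
              omega
          obtain ⟨x, hx, hne⟩ := hx
          have h2 := rad_lower S (fun x => Wt H h p.1 x - Wt H h p.2 x) x hx
          have h3 : 1 ≤ |Wt H h p.1 x - Wt H h p.2 x| := Int.one_le_abs (sub_ne_zero.mpr hne)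
          simp only [Finset.sum_const, Finset.card_powerset, nsmul_eq_mul]
          push_cast
          have hp : (0 : ℤ) < 2 ^ S.card := by positivity
          have h4 : (2 : ℤ) ^ S.card ≤ |Wt H h p.1 x - Wt H h p.2 x| * 2 ^ S.card := by nlinarith
          linarith
      exact key L Q0 (Finset.Subset.refl _) hL
    rw [hLl] at h1 ⊢
    simp only [Finset.sum_const, Finset.card_powerset, nsmul_eq_mul]
    push_cast at h1 ⊢
    linarith
  · exfalso
    have hPQ' : P ⊆ Q := hPQ.trans hQ0Q
    have h1 : (Q0 \ P).Nonempty := by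
      rw [← Finset.card_pos, Finset.card_sdiff_of_subset hPQ]
      have : Q.card = Q0.card + (Q \ Q0).card := by
        rw [Finset.card_sdiff_of_subset hQ0Q]
        have := Finset.card_le_card hQ0Q
        omega
      omega
    obtain ⟨v, hv⟩ := h1
    have hvQ0 := (Finset.mem_sdiff.mp hv).1
    have hdv := hd v hvQ0
    have hdis : Disjoint Q (f v) := by
      rw [Finset.disjoint_left]
      intro y hy hy2
      rw [hf] at hy2
      simp only [Finset.mem_filter] at hy2
      exact hc.disj y hy hy2.1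
    have hB := hR.hnt (Q ∪ f v) (by
      rw [Finset.card_union_of_disjoint hdis]
      omega)
    have hsub : (Q ∪ f v).filter (fun x => ∃ y ∈ Q ∪ f v, y ≠ x ∧ ¬ H.Adj x y) ⊆
        (Q \ Q0) ∪ P ∪ f v := by
      intro x hx
      rw [Finset.mem_filter] at hx
      obtain ⟨hxB, y, hyB, hyx, hna⟩ := hx
      by_contra hcon
      simp only [Finset.mem_union, Finset.mem_sdiff] at hcon hxB
      push Not at hcon
      have hxQ : x ∈ Q := by
        rcases hxB with h | h
        · exact h
        · exact absurd h hcon.2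
      have hxQ0 : x ∈ Q0 := hcon.1.1 hxQ
      have hxf : f x = f v := hPf x (Finset.mem_sdiff.mpr ⟨hxQ0, hcon.1.2⟩) v hv
      rw [Finset.mem_union] at hyB
      rcases hyB with h | h
      · exact hna (hAdj x hxQ0 y h hyx)
      · rw [← hxf, hf] at h
        simp only [Finset.mem_filter] at h
        exact hna h.2
    have h2 := Finset.card_le_card hsub
    have h3 := Finset.card_union_le ((Q \ Q0) ∪ P) (f v)
    have h4 := Finset.card_union_le (Q \ Q0) P
    omega

end Pool.Agent.Helper91.CK
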