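import Pool.Agent.Helper91.CK.Basic

namespace Pool.Agent.Helper91.CK
open Finset

variable {V : Type*} [DecidableEq V]

def sg (T : Finset V) (x : V) : ℤ := if x ∈ T then 1 else -1

lemma sg_Sg (T : Finset V) : Sg (sg T) := by
  intro v
  unfold sg
  by_cases h : v ∈ T <;> simp [h]

lemma sum_pow_split (S : Finset V) (i : V) (hi : i ∈ S) (f : Finset V → ℤ) :
    ∑ T ∈ S.powerset, f T = ∑ T ∈ (S.erase i).powerset, (f T + f (insert i T)) := by
  conv_lhs => rw [← Finset.insert_erase hi]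
  rw [Finset.sum_powerset_insert (Finset.notMem_erase i S), Finset.sum_add_distrib]

lemma sg_insert_ne (T : Finset V) (i x : V) (h : x ≠ i) : sg (insert i T) x = sg T x := by
  simp [sg, h]

lemma sg_insert_self (T : Finset V) (i : V) : sg (insert i T) i = 1 := by
  simp [sg]

lemma sg_notMem (T : Finset V) (i : V) (h : i ∉ T) : sg T i = -1 := by
  simp [sg, h]

lemma rad_lower (S : Finset V) (c : V → ℤ) (i : V) (hi : i ∈ S) :
    |c i| * 2 ^ S.card ≤ ∑ T ∈ S.powerset, |∑ x ∈ S, c x * sg T x| := by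
  rw [sum_pow_split S i hi]
  have h1 : ∀ T ∈ (S.erase i).powerset, 2 * |c i| ≤
      |∑ x ∈ S, c x * sg T x| + |∑ x ∈ S, c x * sg (insert i T) x| := by
    intro T hT
    have hiT : i ∉ T := fun h => Finset.notMem_erase i S (Finset.mem_powerset.mp hT h)
    rw [← Finset.add_sum_erase S (fun x => c x * sg T x) hi,
      ← Finset.add_sum_erase S (fun x => c x * sg (insert i T) x) hi]
    have e : ∑ x ∈ S.erase i, c x * sg (insert i T) x = ∑ x ∈ S.erase i, c x * sg T x := by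
      apply Finset.sum_congr rfl
      intro x hx
      rw [sg_insert_ne T i x (Finset.ne_of_mem_erase hx)]
    simp only [sg_insert_self, sg_notMem T i hiT]
    rw [e]
    set Y := ∑ x ∈ S.erase i, c x * sg T x
    have h2 := abs_sub (c i * 1 + Y) (c i * -1 + Y)
    have h3 : (c i * 1 + Y) - (c i * -1 + Y) = 2 * c i := by ring
    rw [h3, abs_mul] at h2
    simp at h2
    simp only [mul_one, mul_neg] at *
    linarith
  have h2 := Finset.sum_le_sum h1
  rw [Finset.sum_const, Finset.card_powerset, Finset.card_erase_of_mem hi] at h2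
  have h3 : S.card = (S.card - 1) + 1 := by
    have := Finset.card_pos.mpr ⟨i, hi⟩
    omega
  have h4 : |c i| * 2 ^ S.card = 2 ^ (S.card - 1) • (2 * |c i|) := by
    conv_lhs => rw [h3, pow_succ]
    simp
    ring
  rw [h4]
  exact h2

lemma rad_cross (S : Finset V) (x y : V) (hx : x ∈ S) (hxy : x ≠ y) :
    ∑ T ∈ S.powerset, sg T x * sg T y = 0 := by
  rw [sum_pow_split S x hx]
  apply Finset.sum_eq_zero
  intro T hT
  have hiT : x ∉ T := fun h => Finset.notMem_erase x S (Finset.mem_powerset.mp hT h)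
  rw [sg_insert_self, sg_notMem T x hiT, sg_insert_ne T x y hxy.symm]
  ring

lemma rad_F (W : V → V → ℤ) (h0 : ∀ x, W x x = 0) (S : Finset V) :
    ∑ T ∈ S.powerset, F W S (sg T) = 0 := by
  unfold F
  rw [Finset.sum_neg_distrib, neg_eq_zero, Finset.sum_comm]
  apply Finset.sum_eq_zero
  intro x hx
  rw [Finset.sum_comm]
  apply Finset.sum_eq_zero
  intro y hy
  by_cases hxy : x = y
  · subst hxy
    simp [h0]
  · have : ∀ T ∈ S.powerset, W x y * sg T x * sg T y = W x y * (sg T x * sg T y) := by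
      intro T _; ring
    rw [Finset.sum_congr rfl this, ← Finset.mul_sum, rad_cross S x y hx hxy, mul_zero]

lemma rad_moments (c : V → ℤ) (S : Finset V) :
    (∑ T ∈ S.powerset, (∑ x ∈ S, c x * sg T x) ^ 2 = 2 ^ S.card * ∑ x ∈ S, c x ^ 2) ∧
    (∑ T ∈ S.powerset, (∑ x ∈ S, c x * sg T x) ^ 4 ≤ 3 * 2 ^ S.card * (∑ x ∈ S, c x ^ 2) ^ 2) := by
  induction S using Finset.induction_on with
  | empty => simp
  | insert a S ha ih =>
    obtain ⟨ih2, ih4⟩ := ih
    have key : ∀ (m : ℕ), ∑ T ∈ (insert a S).powerset, (∑ x ∈ insert a S, c x * sg T x) ^ m =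
        ∑ T ∈ S.powerset, ((-(c a) + ∑ x ∈ S, c x * sg T x) ^ m +
          (c a + ∑ x ∈ S, c x * sg T x) ^ m) := by
      intro m
      rw [Finset.sum_powerset_insert ha, ← Finset.sum_add_distrib]
      apply Finset.sum_congr rfl
      intro T hT
      have haT : a ∉ T := fun h => ha (Finset.mem_powerset.mp hT h)
      rw [Finset.sum_insert ha, Finset.sum_insert ha, sg_insert_self, sg_notMem T a haT]
      have e : ∑ x ∈ S, c x * sg (insert a T) x = ∑ x ∈ S, c x * sg T x := by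
        apply Finset.sum_congr rfl
        intro x hx
        rw [sg_insert_ne T a x (fun h => ha (h ▸ hx))]
      rw [e]
      ring
    constructor
    · rw [key 2, Finset.card_insert_of_notMem ha, Finset.sum_insert ha]
      have : ∀ T ∈ S.powerset, ((-(c a) + ∑ x ∈ S, c x * sg T x) ^ 2 +
          (c a + ∑ x ∈ S, c x * sg T x) ^ 2) =
          2 * (∑ x ∈ S, c x * sg T x) ^ 2 + 2 * c a ^ 2 := by
        intro T _; ring
      rw [Finset.sum_congr rfl this, Finset.sum_add_distrib, ← Finset.mul_sum, ih2]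
      simp
      ring
    · rw [key 4, Finset.card_insert_of_notMem ha, Finset.sum_insert ha]
      have : ∀ T ∈ S.powerset, ((-(c a) + ∑ x ∈ S, c x * sg T x) ^ 4 +
          (c a + ∑ x ∈ S, c x * sg T x) ^ 4) =
          2 * (∑ x ∈ S, c x * sg T x) ^ 4 + 12 * c a ^ 2 * (∑ x ∈ S, c x * sg T x) ^ 2
            + 2 * c a ^ 4 := by
        intro T _; ring
      rw [Finset.sum_congr rfl this, Finset.sum_add_distrib, Finset.sum_add_distrib,
        ← Finset.mul_sum, ← Finset.mul_sum, ih2]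
      simp only [Finset.sum_const, Finset.card_powerset, nsmul_eq_mul]
      push_cast
      set v := ∑ x ∈ S, c x ^ 2
      set p : ℤ := 2 ^ S.card with hp
      have hp0 : 0 ≤ p := by positivity
      have hq : (2 : ℤ) ^ (S.card + 1) = 2 * p := by rw [pow_succ]; ring
      rw [hq]
      have h5 : 0 ≤ p * c a ^ 4 := by positivity
      nlinarith [ih4, h5]

lemma abs_lower (x l : ℝ) (hl : 0 < l) : 3 * l ^ 2 * x ^ 2 - x ^ 4 ≤ 2 * l ^ 3 * |x| := by
  have h1 : x ^ 2 = |x| ^ 2 := (sq_abs x).symm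
  have h2 : x ^ 4 = |x| ^ 4 := by
    rw [show x ^ 4 = (x ^ 2) ^ 2 by ring, h1]; ring
  rw [h1, h2]
  set y := |x| with hy
  have hy0 : 0 ≤ y := abs_nonneg x
  have : 0 ≤ y * ((y - l) ^ 2 * (y + 2 * l)) := by positivity
  nlinarith [this]

lemma rad_khin (c : V → ℤ) (S : Finset V) (hv : 817 ≤ ∑ x ∈ S, c x ^ 2) :
    33 * 2 ^ S.card ≤ 2 * ∑ T ∈ S.powerset, |∑ x ∈ S, c x * sg T x| := by
  obtain ⟨h2, h4⟩ := rad_moments c S
  set v : ℤ := ∑ x ∈ S, c x ^ 2 with hvdef
  have hv' : (817 : ℝ) ≤ (v : ℝ) := by exact_mod_cast hv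
  set l : ℝ := Real.sqrt (3 * v) with hl
  have hl2 : l ^ 2 = 3 * v := by
    rw [hl, Real.sq_sqrt (by positivity)]
  have hl0 : (49.5 : ℝ) ≤ l := by
    rw [hl]
    apply Real.le_sqrt_of_sq_le
    nlinarith
  have hlpos : 0 < l := by linarith
  have key : ∀ T ∈ S.powerset, 3 * l ^ 2 * (((∑ x ∈ S, c x * sg T x) ^ 2 : ℤ) : ℝ)
      - (((∑ x ∈ S, c x * sg T x) ^ 4 : ℤ) : ℝ) ≤
      2 * l ^ 3 * ((|∑ x ∈ S, c x * sg T x| : ℤ) : ℝ) := by
    intro T _
    have := abs_lower (((∑ x ∈ S, c x * sg T x : ℤ)) : ℝ) l hlpos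
    rw [Int.cast_abs]
    rw [Int.cast_pow, Int.cast_pow]
    exact this
  have hs := Finset.sum_le_sum key
  rw [Finset.sum_sub_distrib, ← Finset.mul_sum, ← Finset.mul_sum, ← Int.cast_sum, ← Int.cast_sum,
    ← Int.cast_sum] at hs
  rw [h2] at hs
  have h4' : (((∑ T ∈ S.powerset, (∑ x ∈ S, c x * sg T x) ^ 4 : ℤ)) : ℝ) ≤
      ((3 * 2 ^ S.card * v ^ 2 : ℤ) : ℝ) := by exact_mod_cast h4
  set E : ℝ := (((∑ T ∈ S.powerset, |∑ x ∈ S, c x * sg T x| : ℤ)) : ℝ) with hE
  have hE33 : (33 : ℝ) * 2 ^ S.card ≤ 2 * E := by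
    push_cast at hs h4'
    set p : ℝ := 2 ^ S.card with hp
    have hp0 : 0 < p := by positivity
    -- 3 l^2 p v - 3 p v^2 ≤ 2 l^3 E ; with v = l^2/3
    have hvl : (v : ℝ) = l ^ 2 / 3 := by linarith
    have h6 : 3 * l ^ 2 * (p * v) - 3 * p * v ^ 2 ≤ 2 * l ^ 3 * E := by linarith
    rw [hvl] at h6
    have h7 : l ^ 3 * (2 * l * p / 3) ≤ l ^ 3 * (2 * E) := by
      have : 3 * l ^ 2 * (p * (l ^ 2 / 3)) - 3 * p * (l ^ 2 / 3) ^ 2 = l ^ 3 * (2 * l * p / 3) := by
        ring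
      linarith
    have h8 : 2 * l * p / 3 ≤ 2 * E := le_of_mul_le_mul_left h7 (by positivity)
    have h9 : 33 * p ≤ 2 * l * p / 3 := by
      have : 49.5 * p ≤ l * p := by nlinarith
      linarith
    linarith
  have : (((33 * 2 ^ S.card : ℤ)) : ℝ) ≤
      ((2 * ∑ T ∈ S.powerset, |∑ x ∈ S, c x * sg T x| : ℤ) : ℝ) := by
    push_cast
    rw [hE] at hE33
    push_cast at hE33
    exact hE33
  exact_mod_cast this

end Pool.Agent.Helper91.CK
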