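import Pool.Agent.Helper91.CK.Block

namespace Pool.Agent.Helper91.CK
open Finset

/-- three copies of `K_{k+1}` minus an edge, joined in a ring by three edges -/
def ring (k : ℕ) : SimpleGraph (Fin 3 × Fin (k + 1)) where
  Adj p q := (p.1 = q.1 ∧ p.2 ≠ q.2 ∧ ¬ (p.2 = 0 ∧ q.2 = 1) ∧ ¬ (p.2 = 1 ∧ q.2 = 0)) ∨
    (q.1 = p.1 + 1 ∧ p.2 = 0 ∧ q.2 = 1) ∨ (p.1 = q.1 + 1 ∧ p.2 = 1 ∧ q.2 = 0)
  symm := ⟨by
    intro p q h
    rcases h with ⟨h1, h2, h3, h4⟩ | ⟨h1, h2, h3⟩ | ⟨h1, h2, h3⟩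
    · left
      exact ⟨h1.symm, h2.symm, fun h => h4 ⟨h.2, h.1⟩, fun h => h3 ⟨h.2, h.1⟩⟩
    · right; right
      exact ⟨h1, h3, h2⟩
    · right; left
      exact ⟨h1, h3, h2⟩⟩
  loopless := ⟨by
    intro p h
    rcases h with ⟨_, h2, _⟩ | ⟨h1, _⟩ | ⟨h1, _⟩
    · exact h2 rfl
    · have : ∀ i : Fin 3, i ≠ i + 1 := by decide
      exact this _ h1
    · have : ∀ i : Fin 3, i ≠ i + 1 := by decide
      exact this _ h1⟩

instance (k : ℕ) : DecidableRel (ring k).Adj := fun p q => by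
  unfold ring
  infer_instance

lemma fin01 {k : ℕ} (hk : 3 ≤ k) : (0 : Fin (k + 1)) ≠ 1 := by
  intro h
  have := congrArg Fin.val h
  simp at this
  omega

def dl {α : Type*} [DecidableEq α] (a b : α) : ℤ := if a = b then 1 else 0

lemma sum_dl {α : Type*} [Fintype α] [DecidableEq α] (b : α) (g : α → ℤ) :
    ∑ a, dl a b * g a = g b := by
  unfold dl
  simp

lemma ad_ring {k : ℕ} (hk : 3 ≤ k) (i j : Fin 3) (a b : Fin (k + 1)) :
    (ad (ring k) (i, a) (j, b) : ℤ) = dl i j * (1 - dl a b - dl a 0 * dl b 1 - dl a 1 * dl b 0) +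
      dl j (i + 1) * (dl a 0 * dl b 1) + dl i (j + 1) * (dl a 1 * dl b 0) := by
  have h01 := fin01 hk
  have hi : ∀ i j : Fin 3, i = j → ¬ j = i + 1 := by decide
  have hi2 : ∀ i j : Fin 3, i = j → ¬ i = j + 1 := by decide
  have hi3 : ∀ i j : Fin 3, j = i + 1 → ¬ i = j + 1 := by decide
  unfold ad dl ring
  simp only
  by_cases h1 : i = j
  · have h2 := hi i j h1
    have h3 := hi2 i j h1
    simp only [h1, if_true, h2, h3, if_false]
    have h4 : ¬ j = j + 1 := hi j j rfl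
    by_cases hab : a = b
    · subst hab
      simp only [h4]
      by_cases ha : a = 0
      · subst ha
        simp [h01]
      · by_cases ha1 : a = 1
        · subst ha1
          simp [h01.symm]
        · simp [ha, ha1]
    · simp only [h4]
      by_cases ha : a = 0
      · subst ha
        by_cases hb : b = 1
        · subst hb
          simp [h01]
        · simp [hab, hb, h01]
      · by_cases ha1 : a = 1
        · subst ha1
          by_cases hb : b = 0
          · subst hb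
            simp [h01.symm]
          · simp [hab, hb, h01.symm]
        · simp [ha, ha1, hab]
  · by_cases h2 : j = i + 1
    · have h3 := hi3 i j h2
      by_cases ha : a = 0 <;> by_cases hb : b = 1 <;> simp [h1, h2, h3, ha, hb] <;>
      · rw [← h2]
        simp [h1, h3]
    · by_cases h3 : i = j + 1
      · by_cases ha : a = 1 <;> by_cases hb : b = 0 <;> simp [h1, h2, ha, hb, h3] <;>
        · rw [← h3]
          simp [h1, h2]
      · simp [h1, h2, h3]

lemma ring_deg {k : ℕ} (hk : 3 ≤ k) (p : Fin 3 × Fin (k + 1)) : ∑ q, ad (ring k) p q = k := by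
  obtain ⟨i, a⟩ := p
  have h1 : (∑ q, (ad (ring k) (i, a) q : ℤ)) = k := by
    rw [Fintype.sum_prod_type]
    simp_rw [ad_ring hk]
    have e1 : ∀ j : Fin 3, ∑ b : Fin (k + 1),
        (dl i j * (1 - dl a b - dl a 0 * dl b 1 - dl a 1 * dl b 0) +
        dl j (i + 1) * (dl a 0 * dl b 1) + dl i (j + 1) * (dl a 1 * dl b 0)) =
        dl i j * ((k + 1) - 1 - dl a 0 - dl a 1) + dl j (i + 1) * dl a 0
          + dl i (j + 1) * dl a 1 := by
      intro j
      simp_rw [Finset.sum_add_distrib, ← Finset.mul_sum, Finset.sum_sub_distrib, ← Finset.mul_sum]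
      have s1 : ∀ c : Fin (k + 1), ∑ b, dl b c = 1 := by
        intro c
        have := sum_dl c (fun _ => (1 : ℤ))
        simpa using this
      have s2 : ∑ b, dl a b = 1 := by
        unfold dl
        simp
      rw [s1, s1, s2]
      simp
    simp_rw [e1]
    have s3 : ∑ j, dl j (i + 1) = 1 := by
      have := sum_dl (i + 1) (fun _ => (1 : ℤ))
      simpa using this
    have s4 : ∑ j, dl i j = 1 := by
      unfold dl
      simp
    have s5 : ∑ j, dl i (j + 1) = 1 := by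
      have : ∀ i : Fin 3, ∑ j, dl i (j + 1) = 1 := by decide
      exact this i
    rw [Finset.sum_add_distrib, Finset.sum_add_distrib, ← Finset.sum_mul, ← Finset.sum_mul,
      ← Finset.sum_mul, s3, s4, s5]
    ring
  exact_mod_cast h1

lemma six_signs (u0 u1 u2 v0 v1 v2 : ℤ) (a0 : u0 = 1 ∨ u0 = -1) (a1 : u1 = 1 ∨ u1 = -1)
    (a2 : u2 = 1 ∨ u2 = -1) (b0 : v0 = 1 ∨ v0 = -1) (b1 : v1 = 1 ∨ v1 = -1)
    (b2 : v2 = 1 ∨ v2 = -1) :
    -4 ≤ (u0 * v1 + u1 * v2 + u2 * v0) - (u0 * v0 + u1 * v1 + u2 * v2) := by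
  rcases a0 with rfl | rfl <;> rcases a1 with rfl | rfl <;> rcases a2 with rfl | rfl <;>
    rcases b0 with rfl | rfl <;> rcases b1 with rfl | rfl <;> rcases b2 with rfl | rfl <;>
    norm_num

lemma parity_sum {α : Type*} (s : Finset α) (σ : α → ℤ) (hσ : ∀ x, σ x = 1 ∨ σ x = -1) :
    ∃ c : ℤ, ∑ x ∈ s, σ x = 2 * c - s.card := by
  classical
  induction s using Finset.induction_on with
  | empty => exact ⟨0, by simp⟩
  | insert a s ha ih =>
    obtain ⟨c, hc⟩ := ih
    rw [Finset.sum_insert ha, Finset.card_insert_of_notMem ha, hc]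
    rcases hσ a with h | h
    · exact ⟨c + 1, by rw [h]; push_cast; ring⟩
    · exact ⟨c, by rw [h]; push_cast; ring⟩

lemma ring_upper {k : ℕ} (hk : 3 ≤ k) (σ : Fin 3 × Fin (k + 1) → ℤ) (hσ : Sg σ) :
    F (fun x y => (ad (ring k) x y : ℤ)) univ σ ≤ 6 * (((k + 1) / 2 : ℕ) : ℤ) + 8 := by
  set s : Fin 3 → ℤ := fun i => ∑ a, σ (i, a) with hs
  have h1 : ∀ i j : Fin 3, ∑ a, ∑ b, (ad (ring k) (i, a) (j, b) : ℤ) * σ (i, a) * σ (j, b) =
      dl i j * (s i * s j - (∑ a, σ (i, a) * σ (j, a)) - σ (i, 0) * σ (j, 1)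
        - σ (i, 1) * σ (j, 0)) + dl j (i + 1) * (σ (i, 0) * σ (j, 1))
        + dl i (j + 1) * (σ (i, 1) * σ (j, 0)) := by
    intro i j
    have e0 : ∀ a b : Fin (k + 1), (ad (ring k) (i, a) (j, b) : ℤ) * σ (i, a) * σ (j, b) =
        dl i j * (σ (i, a) * σ (j, b)) - dl i j * (dl b a * (σ (i, a) * σ (j, b)))
        - dl i j * ((dl a 0 * σ (i, a)) * (dl b 1 * σ (j, b)))
        - dl i j * ((dl a 1 * σ (i, a)) * (dl b 0 * σ (j, b)))
        + dl j (i + 1) * ((dl a 0 * σ (i, a)) * (dl b 1 * σ (j, b)))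
        + dl i (j + 1) * ((dl a 1 * σ (i, a)) * (dl b 0 * σ (j, b))) := by
      intro a b
      rw [ad_ring hk]
      have : dl a b = dl b a := by
        unfold dl
        simp only [eq_comm]
      rw [this]
      ring
    simp_rw [e0]
    have e1 : ∀ a : Fin (k + 1), ∑ b : Fin (k + 1),
        (dl i j * (σ (i, a) * σ (j, b)) - dl i j * (dl b a * (σ (i, a) * σ (j, b)))
        - dl i j * ((dl a 0 * σ (i, a)) * (dl b 1 * σ (j, b)))
        - dl i j * ((dl a 1 * σ (i, a)) * (dl b 0 * σ (j, b)))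
        + dl j (i + 1) * ((dl a 0 * σ (i, a)) * (dl b 1 * σ (j, b)))
        + dl i (j + 1) * ((dl a 1 * σ (i, a)) * (dl b 0 * σ (j, b)))) =
        dl i j * (σ (i, a) * s j) - dl i j * (σ (i, a) * σ (j, a))
        - dl i j * ((dl a 0 * σ (i, a)) * σ (j, 1))
        - dl i j * ((dl a 1 * σ (i, a)) * σ (j, 0))
        + dl j (i + 1) * ((dl a 0 * σ (i, a)) * σ (j, 1))
        + dl i (j + 1) * ((dl a 1 * σ (i, a)) * σ (j, 0)) := by
      intro a
      simp_rw [Finset.sum_add_distrib, Finset.sum_sub_distrib, ← Finset.mul_sum]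
      rw [sum_dl a (fun b => σ (i, a) * σ (j, b)), sum_dl 1 (fun b => σ (j, b)),
        sum_dl 0 (fun b => σ (j, b))]
    simp_rw [e1]
    simp_rw [Finset.sum_add_distrib, Finset.sum_sub_distrib, ← Finset.mul_sum, ← Finset.sum_mul]
    rw [sum_dl 0 (fun b => σ (i, b)), sum_dl 1 (fun b => σ (i, b))]
    rw [hs]
    ring
  have h2 : F (fun x y => (ad (ring k) x y : ℤ)) univ σ =
      -∑ i, ∑ j, ∑ a, ∑ b, (ad (ring k) (i, a) (j, b) : ℤ) * σ (i, a) * σ (j, b) := by
    unfold F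
    rw [Fintype.sum_prod_type]
    congr 1
    apply Finset.sum_congr rfl
    intro i _
    simp_rw [Fintype.sum_prod_type]
    rw [Finset.sum_comm]
  rw [h2]
  simp_rw [h1]
  have hsq : ∀ i : Fin 3, ∑ a, σ (i, a) * σ (i, a) = k + 1 := by
    intro i
    have : ∀ a, σ (i, a) * σ (i, a) = 1 := by
      intro a
      rcases hσ (i, a) with h | h <;> simp [h]
    simp_rw [this]
    simp
  have hs2 : ∀ i : Fin 3, (k : ℤ) + 1 - s i * s i ≤ 2 * (((k + 1) / 2 : ℕ) : ℤ) := by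
    intro i
    obtain ⟨c, hc⟩ := parity_sum (univ : Finset (Fin (k + 1))) (fun a => σ (i, a))
      (fun a => hσ (i, a))
    have hc' : s i = 2 * c - (k + 1) := by
      rw [hs]
      simp only
      rw [hc]
      simp
    push_cast
    rcases Int.even_or_odd' ((k : ℤ) + 1) with ⟨e, he | he⟩
    · rw [he]
      have h3 : (2 * e) / 2 = e := by omega
      rw [h3]
      nlinarith [mul_self_nonneg (s i)]
    · have h3 : s i ≠ 0 := by
        rw [hc', he]
        omega
      have h4 : 1 ≤ s i * s i := by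
        have : 0 < s i * s i := mul_self_pos.mpr h3
        linarith
      rw [he]
      have h5 : (2 * e + 1) / 2 = e := by omega
      rw [h5]
      linarith
  have hdl : ∀ i j : Fin 3, i ≠ j → dl i j = 0 := by
    intro i j h
    simp [dl, h]
  have hdl1 : ∀ i : Fin 3, dl i i = 1 := by
    intro i
    simp [dl]
  have h6 := six_signs (σ (0, 0)) (σ (1, 0)) (σ (2, 0)) (σ (0, 1)) (σ (1, 1)) (σ (2, 1))
    (hσ _) (hσ _) (hσ _) (hσ _) (hσ _) (hσ _)
  rw [Fin.sum_univ_three, Fin.sum_univ_three, Fin.sum_univ_three, Fin.sum_univ_three]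
  have a1 : (0 : Fin 3) + 1 = 1 := by decide
  have a2 : (1 : Fin 3) + 1 = 2 := by decide
  have a3 : (2 : Fin 3) + 1 = 0 := by decide
  rw [a1, a2, a3]
  rw [hdl1, hdl1, hdl1, hdl 0 1 (by decide), hdl 0 2 (by decide), hdl 1 0 (by decide),
    hdl 1 2 (by decide), hdl 2 0 (by decide), hdl 2 1 (by decide), hsq, hsq, hsq]
  have q0 := hs2 0
  have q1 := hs2 1
  have q2 := hs2 2
  linarith

lemma ring_cliqueFree {k : ℕ} (hk : 3 ≤ k) : (ring k).CliqueFree (k + 1) := by
  classical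
  intro s hs
  rw [SimpleGraph.isNClique_iff, SimpleGraph.isClique_iff] at hs
  obtain ⟨hcl, hcard⟩ := hs
  have h01 := fin01 hk
  obtain ⟨p, hp, q, hq, hpq, hpq1⟩ : ∃ p ∈ s, ∃ q ∈ s, p ≠ q ∧ p.1 = q.1 :=
    Finset.exists_ne_map_eq_of_card_lt_of_maps_to (s := s) (t := (univ : Finset (Fin 3)))
      (f := fun p : Fin 3 × Fin (k + 1) => p.1) (by
        rw [Finset.card_univ, Fintype.card_fin, hcard]; omega) (fun _ _ => Finset.mem_univ _)
  have hpq2 : p.2 ≠ q.2 := fun h => hpq (Prod.ext hpq1 h)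
  have hall : ∀ r ∈ s, r.1 = p.1 := by
    intro r hr
    by_contra hne
    have hrp : r ≠ p := fun h => hne (by rw [h])
    have hrq : r ≠ q := fun h => hne (by rw [h, hpq1])
    have c1 := hcl hr hp hrp
    have c2 := hcl hr hq hrq
    rcases c1 with ⟨h1, _⟩ | ⟨h1, h2, h3⟩ | ⟨h1, h2, h3⟩
    · exact hne h1
    · rcases c2 with ⟨g1, _⟩ | ⟨g1, g2, g3⟩ | ⟨g1, g2, g3⟩
      · exact hne (by rw [g1, hpq1])
      · exact hpq2 (by rw [h3, g3])
      · exact h01 (by rw [← h2, g2])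
    · rcases c2 with ⟨g1, _⟩ | ⟨g1, g2, g3⟩ | ⟨g1, g2, g3⟩
      · exact hne (by rw [g1, hpq1])
      · exact h01 (by rw [← g2, h2])
      · exact hpq2 (by rw [h3, g3])
  have hsub : s ⊆ (univ : Finset (Fin (k + 1))).image (fun a => (p.1, a)) := by
    intro r hr
    rw [Finset.mem_image]
    exact ⟨r.2, Finset.mem_univ _, Prod.ext (hall r hr).symm rfl⟩
  have hc2 : ((univ : Finset (Fin (k + 1))).image (fun a => (p.1, a))).card = k + 1 := by
    rw [Finset.card_image_of_injective]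
    · simp
    · intro a b h
      exact (Prod.mk.inj h).2
  have heq := Finset.eq_of_subset_of_card_le hsub (by rw [hc2, hcard])
  have m0 : (p.1, (0 : Fin (k + 1))) ∈ s := by
    rw [heq, Finset.mem_image]
    exact ⟨0, Finset.mem_univ _, rfl⟩
  have m1 : (p.1, (1 : Fin (k + 1))) ∈ s := by
    rw [heq, Finset.mem_image]
    exact ⟨1, Finset.mem_univ _, rfl⟩
  have hadj := hcl m0 m1 (fun h => h01 (Prod.mk.inj h).2)
  have hi : ∀ i : Fin 3, i ≠ i + 1 := by decide
  rcases hadj with ⟨_, _, h3, _⟩ | ⟨h1, _⟩ | ⟨h1, _⟩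
  · exact h3 ⟨rfl, rfl⟩
  · exact hi _ h1
  · exact hi _ h1

end Pool.Agent.Helper91.CK
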