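import Pool.Agent.Helper91.CK.Basic

namespace Pool.Agent.Helper91.CK
open Finset

section nonneg
variable {V : Type*} [DecidableEq V]

lemma nonneg_ext (W : V → V → ℤ) (hW : ∀ x y, W x y = W y x) (h0 : ∀ x, W x x = 0)
    (A B : Finset V) (hd : Disjoint A B) (σ : V → ℤ) (hσ : Sg σ) :
    ∃ σ' : V → ℤ, Sg σ' ∧ (∀ x, x ∉ B → σ' x = σ x) ∧ F W A σ ≤ F W (A ∪ B) σ' := by
  induction B using Finset.induction_on with
  | empty => exact ⟨σ, hσ, fun x _ => rfl, by simp⟩
  | insert a B ha ih =>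
    have hd' : Disjoint A B := Finset.disjoint_of_subset_right (Finset.subset_insert _ _) hd
    obtain ⟨σ1, h1, h2, h3⟩ := ih hd'
    have haA : a ∉ A ∪ B := by
      rw [Finset.mem_union]
      push Not
      exact ⟨Finset.disjoint_right.mp hd (Finset.mem_insert_self _ _), ha⟩
    obtain ⟨σ2, g1, g2, g3⟩ := ext_one W hW h0 (A ∪ B) a haA σ1 h1
    refine ⟨σ2, g1, ?_, ?_⟩
    · intro x hx
      rw [Finset.mem_insert] at hx
      push Not at hx
      rw [g2 x hx.1, h2 x hx.2]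
    · rw [Finset.union_insert]
      have := abs_nonneg (∑ y ∈ A ∪ B, W a y * σ1 y)
      linarith

end nonneg

variable {T R : Type*} [Fintype T] [DecidableEq T] [Fintype R] [DecidableEq R]

def WO (wT : T → T → ℕ) (X : T → ℤ) : Option T → Option T → ℤ
  | none, none => 0
  | none, some b => X b
  | some b, none => X b
  | some b, some b' => (wT b b' : ℤ)

def wz (wT : T → T → ℕ) (b b' : T) : ℤ := (wT b b' : ℤ)

def eT (wT : T → T → ℕ) (wR : T → R → ℕ) (b : T) : ℕ := ∑ b', wT b b' + ∑ x, wR b x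

def hT (wT : T → T → ℕ) (wR : T → R → ℕ) (x y : R) : ℕ :=
  if x = y then 0 else ∑ b ∈ univ.filter (fun b => eT wT wR b = 2), wR b x * wR b y

lemma hT_symm (wT : T → T → ℕ) (wR : T → R → ℕ) (x y : R) :
    hT wT wR x y = hT wT wR y x := by
  unfold hT
  by_cases h : x = y
  · simp [h]
  · rw [if_neg h, if_neg (Ne.symm h)]
    apply Finset.sum_congr rfl
    intro b _
    ring

lemma hT_self (wT : T → T → ℕ) (wR : T → R → ℕ) (x : R) : hT wT wR x x = 0 := by
  simp [hT]

lemma hT_sum (wT : T → T → ℕ) (wR : T → R → ℕ) (x : R) :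
    ∑ y, hT wT wR x y ≤ ∑ b, wR b x := by
  have h1 : ∑ y, hT wT wR x y =
      ∑ y ∈ univ.erase x, ∑ b ∈ univ.filter (fun b => eT wT wR b = 2), wR b x * wR b y := by
    rw [← Finset.sum_erase univ (hT_self wT wR x)]
    apply Finset.sum_congr rfl
    intro y hy
    unfold hT
    rw [if_neg (Finset.ne_of_mem_erase hy).symm]
  rw [h1, Finset.sum_comm]
  calc ∑ b ∈ univ.filter (fun b => eT wT wR b = 2), ∑ y ∈ univ.erase x, wR b x * wR b y
      ≤ ∑ b ∈ univ.filter (fun b => eT wT wR b = 2), wR b x := by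
        apply Finset.sum_le_sum
        intro b hb
        rw [Finset.mem_filter] at hb
        rw [← Finset.mul_sum]
        have h2 : wR b x + ∑ y ∈ univ.erase x, wR b y ≤ 2 := by
          rw [Finset.add_sum_erase univ (fun y => wR b y) (Finset.mem_univ x)]
          have := hb.2
          unfold eT at this
          omega
        set s := ∑ y ∈ univ.erase x, wR b y
        rcases Nat.eq_zero_or_pos (wR b x) with h0 | h0
        · simp [h0]
        · have hs : s ≤ 1 := by omega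
          calc wR b x * s ≤ wR b x * 1 := Nat.mul_le_mul_left _ hs
            _ = wR b x := by ring
    _ ≤ ∑ b, wR b x := Finset.sum_le_sum_of_subset (Finset.filter_subset _ _)

lemma WO_symm (wT : T → T → ℕ) (hs : ∀ b b', wT b b' = wT b' b) (X : T → ℤ) (x y : Option T) :
    WO wT X x y = WO wT X y x := by
  rcases x with _ | x <;> rcases y with _ | y <;> simp [WO, hs]

lemma WO_self (wT : T → T → ℕ) (h0 : ∀ b, wT b b = 0) (X : T → ℤ) (x : Option T) :
    WO wT X x x = 0 := by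
  rcases x with _ | x <;> simp [WO, h0]

lemma F_WO (wT : T → T → ℕ) (X : T → ℤ) (M : Finset T) (τ : Option T → ℤ) :
    F (WO wT X) (M.map Function.Embedding.some) τ = F (wz wT) M (fun b => τ (some b)) := by
  unfold F
  rw [Finset.sum_map]
  congr 1
  apply Finset.sum_congr rfl
  intro b _
  rw [Finset.sum_map]
  rfl

def PM (wT : T → T → ℕ) (T1 M : Finset T) : Prop :=
  M ⊆ T1 ∧ (∀ b ∈ M, ∃ b' ∈ M, 1 ≤ wT b b') ∧
    ∃ τ : T → ℤ, Sg τ ∧ 4 * (M.card : ℤ) - ∑ b ∈ M, ∑ b' ∈ M, (wT b b' : ℤ) ≤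
      3 * F (wz wT) M τ

lemma PM_empty (wT : T → T → ℕ) (T1 : Finset T) : PM wT T1 ∅ :=
  ⟨by simp, by simp, fun _ => 1, fun _ => Or.inl rfl, by simp [F]⟩

lemma PM_step (wT : T → T → ℕ) (hs : ∀ b b', wT b b' = wT b' b) (h0 : ∀ b, wT b b = 0)
    (T1 M : Finset T) (hM : PM wT T1 M) (b b' : T) (hb : b ∈ T1) (hb' : b' ∈ T1)
    (hbM : b ∉ M) (hbM' : b' ∉ M) (hw : 1 ≤ wT b b') :
    PM wT T1 (insert b (insert b' M)) := by
  obtain ⟨h1, h2, τ, h3, h4⟩ := hM
  have hne : b ≠ b' := by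
    rintro rfl
    rw [h0] at hw
    omega
  obtain ⟨σ', g1, g2, g3⟩ := ext_pair' (wz wT) (fun x y => by simp [wz, hs x y])
    (fun x => by simp [wz, h0]) M b b' hbM hbM' hne τ h3
  refine ⟨?_, ?_, σ', g1, ?_⟩
  · intro x hx
    simp only [Finset.mem_insert] at hx
    rcases hx with rfl | rfl | hx
    · exact hb
    · exact hb'
    · exact h1 hx
  · intro x hx
    simp only [Finset.mem_insert] at hx
    rcases hx with rfl | rfl | hx
    · exact ⟨b', by simp, hw⟩
    · exact ⟨b, by simp, by rw [hs]; exact hw⟩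
    · obtain ⟨y, hy, hxy⟩ := h2 x hx
      exact ⟨y, by simp [hy], hxy⟩
  · have hb2 : b ∉ insert b' M := by
      simp [hne, hbM]
    have hc : ((insert b (insert b' M)).card : ℤ) = M.card + 2 := by
      rw [Finset.card_insert_of_notMem hb2, Finset.card_insert_of_notMem hbM']
      push_cast; ring
    have hsum : ∑ x ∈ M, ∑ y ∈ M, (wT x y : ℤ) + 2 * (wT b b' : ℤ) ≤
        ∑ x ∈ insert b (insert b' M), ∑ y ∈ insert b (insert b' M), (wT x y : ℤ) := by
      rw [Finset.sum_insert hb2, Finset.sum_insert hbM']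
      simp_rw [Finset.sum_insert hb2, Finset.sum_insert hbM', Finset.sum_add_distrib]
      rw [h0 b, h0 b', hs b' b]
      have p1 : 0 ≤ ∑ x ∈ M, (wT b x : ℤ) := Finset.sum_nonneg (fun x _ => by positivity)
      have p2 : 0 ≤ ∑ x ∈ M, (wT b' x : ℤ) := Finset.sum_nonneg (fun x _ => by positivity)
      have p3 : 0 ≤ ∑ x ∈ M, (wT x b : ℤ) := Finset.sum_nonneg (fun x _ => by positivity)
      have p4 : 0 ≤ ∑ x ∈ M, (wT x b' : ℤ) := Finset.sum_nonneg (fun x _ => by positivity)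
      push_cast
      linarith
    have habs : |wz wT b b'| = (wT b b' : ℤ) := by
      unfold wz
      exact abs_of_nonneg (by positivity)
    rw [habs] at g3
    have hw' : (1 : ℤ) ≤ (wT b b' : ℤ) := by exact_mod_cast hw
    rw [hc]
    linarith

lemma PM_max (wT : T → T → ℕ) (hs : ∀ b b', wT b b' = wT b' b) (h0 : ∀ b, wT b b = 0)
    (T1 : Finset T) : ∃ M, PM wT T1 M ∧ ∀ b ∈ T1, ∀ b' ∈ T1, b ∉ M → b' ∉ M → wT b b' = 0 := by
  classical
  obtain ⟨M, hM, hmax⟩ := Finset.exists_max_image (univ.filter (fun M => PM wT T1 M))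
    (fun M => M.card) ⟨∅, by simp [PM_empty]⟩
  rw [Finset.mem_filter] at hM
  refine ⟨M, hM.2, ?_⟩
  intro b hb b' hb' hbM hbM'
  by_contra hne
  have hw : 1 ≤ wT b b' := Nat.one_le_iff_ne_zero.mpr hne
  have := hmax _ (Finset.mem_filter.mpr ⟨Finset.mem_univ _,
    PM_step wT hs h0 T1 M hM.2 b b' hb hb' hbM hbM' hw⟩)
  have hbb : b ≠ b' := by
    rintro rfl
    exact hne (h0 b)
  have hb2 : b ∉ insert b' M := by
    simp [hbb, hbM]
  rw [Finset.card_insert_of_notMem hb2, Finset.card_insert_of_notMem hbM'] at this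
  omega

lemma U_step (wT : T → T → ℕ) (hs : ∀ b b', wT b b' = wT b' b) (h0 : ∀ b, wT b b = 0)
    (X : T → ℤ) (U : Finset T) (hU : ∀ b ∈ U, ∀ b' ∈ U, wT b b' = 0) :
    ∃ σ : Option T → ℤ, Sg σ ∧ σ none = 1 ∧
      ∑ u ∈ U, 2 * |X u| ≤ F (WO wT X) (insert none (U.map Function.Embedding.some)) σ := by
  induction U using Finset.induction_on with
  | empty =>
    refine ⟨fun _ => 1, fun _ => Or.inl rfl, rfl, ?_⟩
    simp [F, WO]
  | insert a U ha ih =>
    obtain ⟨σ, h1, h2, h3⟩ := ih (fun b hb b' hb' =>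
      hU b (Finset.mem_insert_of_mem hb) b' (Finset.mem_insert_of_mem hb'))
    have haU : some a ∉ insert none (U.map Function.Embedding.some) := by
      simp [ha]
    obtain ⟨σ', g1, g2, g3⟩ := ext_one (WO wT X) (WO_symm wT hs X) (WO_self wT h0 X) _ (some a)
      haU σ h1
    refine ⟨σ', g1, ?_, ?_⟩
    · rw [g2 none (by simp), h2]
    · have e1 : insert (some a) (insert none (U.map Function.Embedding.some)) =
          insert none ((insert a U).map Function.Embedding.some) := by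
        rw [Finset.map_insert, Finset.insert_comm]
        rfl
      have e2 : ∑ y ∈ insert none (U.map Function.Embedding.some), WO wT X (some a) y * σ y
          = X a := by
        rw [Finset.sum_insert (by simp), Finset.sum_map, h2]
        have : ∑ x ∈ U, WO wT X (some a) (Function.Embedding.some x) *
            σ (Function.Embedding.some x) = 0 := by
          apply Finset.sum_eq_zero
          intro x hx
          have : wT a x = 0 := hU a (Finset.mem_insert_self _ _) x (Finset.mem_insert_of_mem hx)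
          simp [WO, this]
        rw [this]
        simp [WO]
      rw [e1, e2] at g3
      rw [Finset.sum_insert ha]
      linarith

theorem tpart (wT : T → T → ℕ) (wR : T → R → ℕ) (hs : ∀ b b', wT b b' = wT b' b)
    (h0 : ∀ b, wT b b = 0) (he : ∀ b, Even (eT wT wR b)) (h2 : ∀ b, 2 ≤ eT wT wR b)
    (σ : R → ℤ) (hσ : Sg σ) :
    ∃ ε : T → ℤ, Sg ε ∧
      ∑ b, (8 - 3 * (eT wT wR b : ℤ)) + ∑ b, ∑ x, (wR b x : ℤ)
        + 3 * ∑ x, ∑ y, (hT wT wR x y : ℤ) * σ x * σ y ≤
      3 * (-∑ b, ∑ b', (wT b b' : ℤ) * ε b * ε b' - 2 * ∑ b, ∑ x, (wR b x : ℤ) * ε b * σ x) := by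
  classical
  set T1 : Finset T := univ.filter (fun b => eT wT wR b = 2) with hT1
  set T2 : Finset T := univ.filter (fun b => ¬ eT wT wR b = 2) with hT2
  set X : T → ℤ := fun b => ∑ x, (wR b x : ℤ) * σ x with hX
  set a : T → ℤ := fun b => ∑ x, (wR b x : ℤ) with ha
  obtain ⟨M, ⟨hMs, hMn, τ, hτ, hMτ⟩, hMmax⟩ := PM_max wT hs h0 T1
  set U : Finset T := T1 \ M with hU
  have hUU : ∀ b ∈ U, ∀ b' ∈ U, wT b b' = 0 := by
    intro b hb b' hb'
    rw [hU, Finset.mem_sdiff] at hb hb'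
    exact hMmax b hb.1 b' hb'.1 hb.2 hb'.2
  obtain ⟨σ1, f1, f2, f3⟩ := U_step wT hs h0 X U hUU
  -- add M
  have hdM : Disjoint (insert none (U.map Function.Embedding.some)) 
      (M.map Function.Embedding.some) := by
    rw [Finset.disjoint_right]
    intro x hx
    rw [Finset.mem_map] at hx
    obtain ⟨b, hb, rfl⟩ := hx
    simp [hU, hb]
  obtain ⟨σ2, g1, g2, g3⟩ := ext (WO wT X) (WO_symm wT hs X) _ _ hdM σ1
    (fun o => o.elim 1 τ) f1 (by
      intro o
      rcases o with _ | b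
      · left; rfl
      · exact hτ b)
  rw [F_WO] at g3
  have g3' : F (wz wT) M (fun b => (fun o : Option T => o.elim 1 τ) (some b)) = F (wz wT) M τ := rfl
  rw [g3'] at g3
  have hdT : Disjoint (insert none (U.map Function.Embedding.some) ∪
      (M.map Function.Embedding.some)) (T2.map Function.Embedding.some) := by
    rw [Finset.disjoint_right]
    intro x hx
    rw [Finset.mem_map] at hx
    obtain ⟨b, hb, rfl⟩ := hx
    rw [hT2, Finset.mem_filter] at hb
    have hbM : b ∉ M := fun h => by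
      have := hMs h
      rw [hT1, Finset.mem_filter] at this
      exact hb.2 this.2
    simp [hU, hbM, hT1, hb.2]
  obtain ⟨σ3, k1, k2, k3⟩ := nonneg_ext (WO wT X) (WO_symm wT hs X) (WO_self wT h0 X) _ _ hdT σ2 g1
  have huniv : insert none (U.map Function.Embedding.some) ∪
      (M.map Function.Embedding.some) ∪ (T2.map Function.Embedding.some) = univ := by
    apply Finset.eq_univ_of_forall
    intro o
    rcases o with _ | b
    · simp
    · by_cases h1 : eT wT wR b = 2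
      · by_cases h2 : b ∈ M
        · simp [h2]
        · simp [hU, hT1, h1, h2]
      · simp [hT2, h1]
  rw [huniv] at k3
  have hnone : σ3 none = 1 := by
    rw [k2 none (by simp), g2 none (by simp), f2]
  refine ⟨fun b => σ3 (some b), fun b => k1 (some b), ?_⟩
  -- compute F over univ
  have hF : F (WO wT X) univ σ3 = -∑ b, ∑ b', (wT b b' : ℤ) * σ3 (some b) * σ3 (some b')
      - 2 * ∑ b, ∑ x, (wR b x : ℤ) * σ3 (some b) * σ x := by
    unfold F
    rw [Fintype.sum_option]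
    simp_rw [Fintype.sum_option]
    rw [Finset.sum_add_distrib, hnone]
    simp only [WO]
    have e1 : ∀ b, X b * σ3 (some b) * 1 = ∑ x, (wR b x : ℤ) * σ3 (some b) * σ x := by
      intro b
      rw [hX]
      simp only
      rw [mul_one, Finset.sum_mul]
      apply Finset.sum_congr rfl
      intro x _
      ring
    simp_rw [e1]
    have e2 : ∑ x, X x * 1 * σ3 (some x) = ∑ b, ∑ x, (wR b x : ℤ) * σ3 (some b) * σ x := by
      apply Finset.sum_congr rfl
      intro b _
      rw [← e1]; ring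
    rw [e2]
    ring
  -- per node facts
  have hH : ∑ x, ∑ y, (hT wT wR x y : ℤ) * σ x * σ y =
      ∑ b ∈ T1, (X b ^ 2 - ∑ x, (wR b x : ℤ) ^ 2) := by
    have e1 : ∀ x y, (hT wT wR x y : ℤ) * σ x * σ y =
        ∑ b ∈ T1, ((wR b x : ℤ) * σ x * ((wR b y : ℤ) * σ y)
          - if x = y then (wR b x : ℤ) ^ 2 else 0) := by
      intro x y
      unfold hT
      by_cases h : x = y
      · subst h
        simp only [if_true]
        symm
        simp only [Nat.cast_zero, zero_mul]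
        apply Finset.sum_eq_zero
        intro b _
        have : σ x * σ x = 1 := by
          rcases hσ x with h | h <;> simp [h]
        linear_combination (wR b x : ℤ) ^ 2 * this
      · simp only [if_neg h, sub_zero]
        push_cast
        rw [Finset.sum_mul, Finset.sum_mul]
        apply Finset.sum_congr rfl
        intro b _
        ring
    simp_rw [e1]
    have e2 : ∀ x, ∑ y, ∑ b ∈ T1, ((wR b x : ℤ) * σ x * ((wR b y : ℤ) * σ y)
          - if x = y then (wR b x : ℤ) ^ 2 else 0) = 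
          ∑ b ∈ T1, ∑ y, ((wR b x : ℤ) * σ x * ((wR b y : ℤ) * σ y)
          - if x = y then (wR b x : ℤ) ^ 2 else 0) := fun x => Finset.sum_comm
    simp_rw [e2]
    rw [Finset.sum_comm]
    apply Finset.sum_congr rfl
    intro b _
    simp_rw [Finset.sum_sub_distrib]
    congr 1
    · rw [hX]
      simp only
      rw [sq, Finset.sum_mul_sum]
    · apply Finset.sum_congr rfl
      intro x _
      simp
  have hXa : ∀ b, |X b| ≤ a b := by
    intro b
    rw [hX, ha]
    simp only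
    refine (Finset.abs_sum_le_sum_abs _ _).trans ?_
    apply Finset.sum_le_sum
    intro x _
    rw [abs_mul]
    have : |σ x| = 1 := by rcases hσ x with h | h <;> simp [h]
    rw [this, mul_one]
    exact le_of_eq (abs_of_nonneg (by positivity))
  have hq : ∀ b, a b ≤ ∑ x, (wR b x : ℤ) ^ 2 := by
    intro b
    apply Finset.sum_le_sum
    intro x _
    have : wR b x ≤ wR b x ^ 2 := by
      rcases Nat.eq_zero_or_pos (wR b x) with h | h
      · simp [h]
      · nlinarith
    exact_mod_cast this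
  have he' : ∀ b, (eT wT wR b : ℤ) = ∑ b', (wT b b' : ℤ) + a b := by
    intro b
    simp [eT, ha]
  -- decompose sums over T
  have hsplit : ∀ f : T → ℤ, ∑ b, f b = ∑ b ∈ U, f b + ∑ b ∈ M, f b + ∑ b ∈ T2, f b := by
    intro f
    rw [← Finset.sum_filter_add_sum_filter_not univ (fun b => eT wT wR b = 2) f]
    rw [← Finset.sum_sdiff hMs]
  have hsplit1 : ∀ f : T → ℤ, ∑ b ∈ T1, f b = ∑ b ∈ U, f b + ∑ b ∈ M, f b := by
    intro f
    rw [← Finset.sum_sdiff hMs]
  rw [← hF, hH, hsplit, hsplit (fun b => ∑ x, (wR b x : ℤ)), hsplit1]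
  -- U part
  have hUp : ∑ b ∈ U, (8 - 3 * (eT wT wR b : ℤ)) + ∑ b ∈ U, ∑ x, (wR b x : ℤ) +
      3 * ∑ b ∈ U, (X b ^ 2 - ∑ x, (wR b x : ℤ) ^ 2) ≤
      3 * ∑ u ∈ U, 2 * |X u| + ∑ b ∈ U, ∑ b', (wT b b' : ℤ) := by
    rw [Finset.mul_sum, Finset.mul_sum, ← Finset.sum_add_distrib, ← Finset.sum_add_distrib,
      ← Finset.sum_add_distrib]
    apply Finset.sum_le_sum
    intro b hb
    have hb1 : eT wT wR b = 2 := by
      rw [hU, Finset.mem_sdiff, hT1, Finset.mem_filter] at hb
      exact hb.1.2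
    have e1 := he' b
    rw [hb1] at e1 ⊢
    push_cast at e1 ⊢
    have e2 := hXa b
    have e3 := hq b
    have e4 : 0 ≤ ∑ b', (wT b b' : ℤ) := Finset.sum_nonneg (fun x _ => by positivity)
    have e5 : a b ≤ 2 := by linarith
    have e6 : 0 ≤ |X b| := abs_nonneg _
    have e7 : X b ^ 2 = |X b| ^ 2 := (sq_abs _).symm
    have e8 : ∑ x, (wR b x : ℤ) = a b := rfl
    have e9 : 0 ≤ |X b| * (2 - |X b|) := by
      apply mul_nonneg e6
      linarith
    rw [e7, e8]
    nlinarith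
  -- M part
  have hMp : ∑ b ∈ M, (8 - 3 * (eT wT wR b : ℤ)) + ∑ b ∈ M, ∑ x, (wR b x : ℤ) +
      3 * ∑ b ∈ M, (X b ^ 2 - ∑ x, (wR b x : ℤ) ^ 2) ≤
      4 * (M.card : ℤ) - ∑ b ∈ M, ∑ b', (wT b b' : ℤ) := by
    have : 4 * (M.card : ℤ) = ∑ b ∈ M, (4 : ℤ) := by simp; ring
    rw [this, Finset.mul_sum, ← Finset.sum_add_distrib, ← Finset.sum_add_distrib,
      ← Finset.sum_sub_distrib]
    apply Finset.sum_le_sum
    intro b hb
    have hb1 : eT wT wR b = 2 := by
      have := hMs hb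
      rw [hT1, Finset.mem_filter] at this
      exact this.2
    have e1 := he' b
    rw [hb1] at e1 ⊢
    push_cast at e1 ⊢
    have e2 := hXa b
    have e3 := hq b
    obtain ⟨b', hb', hbb⟩ := hMn b hb
    have e4 : 1 ≤ ∑ b', (wT b b' : ℤ) := by
      calc (1 : ℤ) ≤ (wT b b' : ℤ) := by exact_mod_cast hbb
        _ ≤ ∑ b', (wT b b' : ℤ) := Finset.single_le_sum
            (f := fun b' => (wT b b' : ℤ)) (fun x _ => by positivity) (Finset.mem_univ b')
    have e5 : a b ≤ 1 := by linarith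
    have e6 : 0 ≤ |X b| := abs_nonneg _
    have e7 : X b ^ 2 = |X b| ^ 2 := (sq_abs _).symm
    have e8 : ∑ x, (wR b x : ℤ) = a b := rfl
    have e9 : 0 ≤ |X b| * (1 - |X b|) := by
      apply mul_nonneg e6
      linarith
    rw [e7, e8]
    nlinarith
  -- T2 part
  have hTp : ∑ b ∈ T2, (8 - 3 * (eT wT wR b : ℤ)) + ∑ b ∈ T2, ∑ x, (wR b x : ℤ) ≤
      - ∑ b ∈ T2, ∑ b', (wT b b' : ℤ) := by
    rw [← Finset.sum_add_distrib, ← Finset.sum_neg_distrib]
    apply Finset.sum_le_sum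
    intro b hb
    rw [hT2, Finset.mem_filter] at hb
    have hb4 : 4 ≤ eT wT wR b := by
      obtain ⟨c, hc⟩ := he b
      have := h2 b
      have := hb.2
      omega
    have hb4' : (4 : ℤ) ≤ (eT wT wR b : ℤ) := by exact_mod_cast hb4
    have e1 := he' b
    have e8 : ∑ x, (wR b x : ℤ) = a b := rfl
    rw [e8]
    linarith
  -- weights between parts
  have hwU : ∑ b ∈ U, ∑ b', (wT b b' : ℤ) =
      ∑ b ∈ U, ∑ b' ∈ M, (wT b b' : ℤ) + ∑ b ∈ U, ∑ b' ∈ T2, (wT b b' : ℤ) := by
    have : ∀ b ∈ U, ∑ b', (wT b b' : ℤ) =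
        ∑ b' ∈ M, (wT b b' : ℤ) + ∑ b' ∈ T2, (wT b b' : ℤ) := by
      intro b hb
      rw [hsplit]
      have : ∑ b' ∈ U, (wT b b' : ℤ) = 0 := by
        apply Finset.sum_eq_zero
        intro b' hb'
        simp [hUU b hb b' hb']
      rw [this]; ring
    rw [Finset.sum_congr rfl this, Finset.sum_add_distrib]
  have hwM : ∑ b ∈ M, ∑ b', (wT b b' : ℤ) =
      ∑ b ∈ M, ∑ b' ∈ U, (wT b b' : ℤ) + ∑ b ∈ M, ∑ b' ∈ M, (wT b b' : ℤ) +
      ∑ b ∈ M, ∑ b' ∈ T2, (wT b b' : ℤ) := by
    simp_rw [hsplit, Finset.sum_add_distrib]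
  have hwT : ∑ b ∈ T2, ∑ b' ∈ U, (wT b b' : ℤ) ≤ ∑ b ∈ T2, ∑ b', (wT b b' : ℤ) := by
    apply Finset.sum_le_sum
    intro b _
    exact Finset.sum_le_sum_of_subset_of_nonneg (Finset.subset_univ _) (fun x _ _ => by positivity)
  have hc1 : ∑ b ∈ M, ∑ b' ∈ U, (wT b b' : ℤ) = ∑ b ∈ U, ∑ b' ∈ M, (wT b b' : ℤ) := by
    rw [Finset.sum_comm]
    apply Finset.sum_congr rfl
    intro x _
    apply Finset.sum_congr rfl
    intro y _
    rw [hs]
  have hc2 : ∑ b ∈ T2, ∑ b' ∈ U, (wT b b' : ℤ) = ∑ b ∈ U, ∑ b' ∈ T2, (wT b b' : ℤ) := by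
    rw [Finset.sum_comm]
    apply Finset.sum_congr rfl
    intro x _
    apply Finset.sum_congr rfl
    intro y _
    rw [hs]
  have hp : 0 ≤ ∑ b ∈ M, ∑ b' ∈ T2, (wT b b' : ℤ) :=
    Finset.sum_nonneg (fun x _ => Finset.sum_nonneg (fun y _ => by positivity))
  have hcr := abs_nonneg (cr (WO wT X) (insert none (U.map Function.Embedding.some))
    (M.map Function.Embedding.some) σ1 (fun o => o.elim 1 τ))
  have hmain : 3 * (∑ u ∈ U, 2 * |X u|) + (4 * (M.card : ℤ) - ∑ b ∈ M, ∑ b' ∈ M, (wT b b' : ℤ))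
      ≤ 3 * F (WO wT X) univ σ3 := by linarith
  linarith

end Pool.Agent.Helper91.CK
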